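import Pool.Agent.Work.MP_95e4ab_al.Artin

set_option autoImplicit false

namespace Pool.Agent.Work.MP_95e4ab_al

universe u v w

/-- Koenig's lemma for words. -/
theorem konig {α : Type} [Finite α] (W : List α → Prop) (hpre : ∀ w w', W (w ++ w') → W w)
    (hlen : ∀ n, ∃ w, W w ∧ w.length = n) : ∃ s : ℕ → α, ∀ k, W ((List.range k).map s) := by
  classical
  let rich : List α → Prop := fun w => ∀ n, ∃ w', w'.length = n ∧ W (w ++ w')
  have h0 : rich [] := by
    intro n
    obtain ⟨w, hw, hn⟩ := hlen n
    exact ⟨w, hn, by simpa using hw⟩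
  have hstep : ∀ w, rich w → ∃ a, rich (w ++ [a]) := by
    intro w hw
    by_contra hcon
    push Not at hcon
    have hcon' : ∀ a, ∃ n, ∀ w' : List α, w'.length = n → ¬ W (w ++ [a] ++ w') := by
      intro a
      have := hcon a
      simp only [rich] at this
      push Not at this
      exact this
    choose N hN using hcon'
    obtain ⟨B, hB⟩ := (Set.finite_range N).bddAbove
    obtain ⟨w', hw', hW⟩ := hw (B + 1)
    cases w' with
    | nil => simp at hw'
    | cons a w'' =>
      have hlen' : w''.length = B := by simpa using hw'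
      have hNa : N a ≤ B := hB ⟨a, rfl⟩
      refine hN a (w''.take (N a)) (by simp [hlen', hNa]) (hpre _ (w''.drop (N a)) ?_)
      have : w ++ [a] ++ w''.take (N a) ++ w''.drop (N a) = w ++ a :: w'' := by
        simp [List.append_assoc]
      rw [this]
      exact hW
  choose nx hnx using hstep
  let ws : ℕ → {w : List α // rich w} := fun k =>
    Nat.rec ⟨[], h0⟩ (fun _ w => ⟨w.1 ++ [nx w.1 w.2], hnx w.1 w.2⟩) k
  let s : ℕ → α := fun k => nx (ws k).1 (ws k).2
  have hws : ∀ k, (ws k).1 = (List.range k).map s := by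
    intro k
    induction k with
    | zero => rfl
    | succ k ih =>
      rw [List.range_succ, List.map_append, ← ih]
      rfl
  refine ⟨s, fun k => ?_⟩
  rw [← hws]
  obtain ⟨w', _, hw'⟩ := (ws k).2 0
  exact hpre _ _ hw'

section

variable {R : Type u} [Ring R]

/-- Generators and relations of a finitely presented module. -/
theorem fp_data (X : Type u) [AddCommGroup X] [Module R X] [Module.FinitePresentation R X] :
    ∃ (n m : ℕ) (x : Fin n → X) (ρ : Fin m → Fin n → R), Submodule.span R (Set.range x) = ⊤ ∧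
      ∀ (M : Type u) [AddCommGroup M] [Module R M] (y : Fin n → M),
        (∀ i, ∑ s, ρ i s • y s = 0) ↔ ∃ h : X →ₗ[R] M, ∀ s, h (x s) = y s := by
  classical
  obtain ⟨n, m, f, g, hf, hfg⟩ := Module.FinitePresentation.exists_fin' R X
  have hsum : ∀ v : Fin n → R, v = ∑ s, v s • (Pi.single s (1 : R) : Fin n → R) := by
    intro v
    have : ∀ s, v s • (Pi.single s (1 : R) : Fin n → R) = Pi.single s (v s) := fun s => by
      rw [← Pi.single_smul, smul_eq_mul, mul_one]
    simp only [this]
    exact (Finset.univ_sum_single v).symm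
  have hsum' : ∀ v : Fin m → R, v = ∑ s, v s • (Pi.single s (1 : R) : Fin m → R) := by
    intro v
    have : ∀ s, v s • (Pi.single s (1 : R) : Fin m → R) = Pi.single s (v s) := fun s => by
      rw [← Pi.single_smul, smul_eq_mul, mul_one]
    simp only [this]
    exact (Finset.univ_sum_single v).symm
  refine ⟨n, m, fun s => f (Pi.single s 1), fun i => g (Pi.single i 1), ?_, ?_⟩
  · rw [Submodule.eq_top_iff']
    intro x
    obtain ⟨v, rfl⟩ := hf x
    rw [hsum v, map_sum]
    refine Submodule.sum_mem _ fun s _ => ?_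
    rw [map_smul]
    exact Submodule.smul_mem _ _ (Submodule.subset_span ⟨s, rfl⟩)
  · intro M _ _ y
    constructor
    · intro h
      let u : (Fin n → R) →ₗ[R] M := Fintype.linearCombination R y
      have hu : ∀ v, u v = ∑ s, v s • y s := fun v => Fintype.linearCombination_apply R y v
      have hle : LinearMap.ker f ≤ LinearMap.ker u := by
        intro v hv
        obtain ⟨w, rfl⟩ := (hfg v).mp hv
        rw [LinearMap.mem_ker, hsum' w, map_sum, map_sum]
        refine Finset.sum_eq_zero fun i _ => ?_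
        rw [map_smul, map_smul, hu, h i, smul_zero]
      let e := f.quotKerEquivOfSurjective hf
      refine ⟨((LinearMap.ker f).liftQ u hle) ∘ₗ e.symm.toLinearMap, fun s => ?_⟩
      have h1 : e.symm (f (Pi.single s 1)) = Submodule.Quotient.mk (Pi.single s 1) := by
        rw [LinearEquiv.symm_apply_eq]
        rfl
      change ((LinearMap.ker f).liftQ u hle) (e.symm (f (Pi.single s 1))) = y s
      rw [h1]
      change u (Pi.single s 1) = y s
      rw [hu, Finset.sum_eq_single s]
      · simp
      · intro b _ hb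
        rw [Pi.single_eq_of_ne hb, zero_smul]
      · simp
    · rintro ⟨h, hh⟩ i
      have h1 : f (g (Pi.single i 1)) = 0 := hfg.apply_apply_eq_zero _
      rw [hsum (g (Pi.single i 1)), map_sum] at h1
      have h2 := congrArg h h1
      rw [map_zero, map_sum] at h2
      rw [← h2]
      refine Finset.sum_congr rfl fun s _ => ?_
      rw [map_smul, map_smul, hh s]

/-- The pp pair of a map of finitely presented modules. -/
theorem exists_pair {X Y : Type u} [AddCommGroup X] [Module R X] [AddCommGroup Y] [Module R Y]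
    (hX : Module.FinitePresentation R X) (hY : Module.FinitePresentation R Y) (f : X →ₗ[R] Y) :
    ∃ (n : ℕ) (α β : PP R n), ∀ (M : Type u) [AddCommGroup M] [Module R M],
      α.ev M ≤ β.ev M ↔ ∀ g : X →ₗ[R] M, ∃ h : Y →ₗ[R] M, h ∘ₗ f = g := by
  obtain ⟨n, m, x, ρ, hx, hρ⟩ := fp_data (R := R) X
  obtain ⟨q, r, y, σ, hy, hσ⟩ := fp_data (R := R) Y
  have hc : ∀ s, ∃ c : Fin q → R, ∑ j, c j • y j = f (x s) := by
    intro s
    have : f (x s) ∈ Submodule.span R (Set.range y) := by
      rw [hy]
      trivial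
    exact (Submodule.mem_span_range_iff_exists_fun R).mp this
  choose c hc using hc
  let α : PP R n := ⟨m, 0, ρ, fun _ j => j.elim0⟩
  let β : PP R n := PP.ofFin (ι := Fin r ⊕ Fin n) (κ := Fin q)
    (Sum.elim (fun _ _ => 0) (fun s s' => if s = s' then 1 else 0))
    (Sum.elim (fun i j => σ i j) (fun s j => - c s j))
  have hα : ∀ (M : Type u) [AddCommGroup M] [Module R M] (z : Fin n → M), z ∈ α.ev M ↔
      ∃ h : X →ₗ[R] M, ∀ s, h (x s) = z s := by
    intro M _ _ z
    rw [← hρ]
    constructor
    · rintro ⟨w, hw⟩ i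
      have := hw i
      simpa [α] using this
    · intro h
      exact ⟨fun j => j.elim0, fun i => by simpa [α] using h i⟩
  have hβ : ∀ (M : Type u) [AddCommGroup M] [Module R M] (z : Fin n → M), z ∈ β.ev M ↔
      ∃ h : Y →ₗ[R] M, ∀ s, h (f (x s)) = z s := by
    intro M _ _ z
    rw [PP.mem_ofFin]
    constructor
    · rintro ⟨w, hw⟩
      have h1 : ∀ i, ∑ j, σ i j • w j = 0 := by
        intro i
        have := hw (Sum.inl i)
        simpa using this
      obtain ⟨h, hh⟩ := (hσ M w).mp h1
      refine ⟨h, fun s => ?_⟩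
      have h2 := hw (Sum.inr s)
      simp only [Sum.elim_inr, ite_smul, one_smul, zero_smul, neg_smul,
        Finset.sum_neg_distrib, Finset.sum_ite_eq, Finset.mem_univ, if_true] at h2
      rw [add_neg_eq_zero] at h2
      rw [← hc s, map_sum, h2]
      refine Finset.sum_congr rfl fun j _ => ?_
      rw [map_smul, hh]
    · rintro ⟨h, hh⟩
      refine ⟨fun j => h (y j), ?_⟩
      rintro (i | s)
      · have := (hσ M (fun j => h (y j))).mpr ⟨h, fun _ => rfl⟩ i
        simpa using this
      · simp only [Sum.elim_inr, ite_smul, one_smul, zero_smul, neg_smul,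
          Finset.sum_neg_distrib, Finset.sum_ite_eq, Finset.mem_univ, if_true]
        rw [add_neg_eq_zero, ← hh s, ← hc s, map_sum]
        refine Finset.sum_congr rfl fun j _ => ?_
        rw [map_smul]
  refine ⟨n, α, β, fun M _ _ => ?_⟩
  constructor
  · intro hle g
    have h1 : (fun s => g (x s)) ∈ α.ev M := (hα M _).mpr ⟨g, fun _ => rfl⟩
    obtain ⟨h, hh⟩ := (hβ M _).mp (hle h1)
    refine ⟨h, ?_⟩
    refine LinearMap.ext_on_range hx ?_
    intro s
    exact hh s
  · intro hfac z hz
    obtain ⟨g, hg⟩ := (hα M z).mp hz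
    obtain ⟨h, hh⟩ := hfac g
    refine (hβ M z).mpr ⟨h, fun s => ?_⟩
    rw [← hg s, ← hh]
    rfl

/-- Projective resolutions of length `n`, as in the problem. -/
def Res (R : Type u) [Ring R] (M : ModuleCat.{u} R) (n : ℕ) : Prop :=
  ∃ (P : ℕ → ModuleCat.{u} R) (d : ∀ i : ℕ, P (i+1) →ₗ[R] P i) (ε : P 0 →ₗ[R] M),
    (∀ i, Module.Projective R (P i)) ∧ Function.Surjective ε ∧
    LinearMap.ker ε = LinearMap.range (d 0) ∧
    (∀ i, LinearMap.ker (d i) = LinearMap.range (d (i+1))) ∧
    (∀ i, n ≤ i → Subsingleton (P (i+1)))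

theorem PDle_of_Res (n : ℕ) : ∀ M : ModuleCat.{u} R, Res R M n → PDle R n M := by
  induction n with
  | zero =>
    rintro M ⟨P, d, ε, hP, hε, h0, _, hn⟩
    have h1 : Subsingleton (P 1) := hn 0 le_rfl
    have h2 : LinearMap.ker ε = ⊥ := by
      rw [h0, LinearMap.range_eq_bot]
      ext x
      rw [Subsingleton.elim x 0, map_zero, map_zero]
    have e : P 0 ≃ₗ[R] M := LinearEquiv.ofBijective ε ⟨LinearMap.ker_eq_bot.mp h2, hε⟩
    have := hP 0
    exact Module.Projective.of_equiv e
  | succ n ih =>
    rintro M ⟨P, d, ε, hP, hε, h0, hd, hn⟩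
    refine ⟨P 0, inferInstance, inferInstance, ε, hP 0, hε, ?_⟩
    refine ih (ModuleCat.of R (LinearMap.ker ε)) ⟨fun i => P (i + 1), fun i => d (i + 1),
      (d 0).codRestrict (LinearMap.ker ε) (fun x => by
        rw [h0]
        exact ⟨x, rfl⟩), fun i => hP _, ?_, ?_, fun i => hd (i + 1), fun i hi => hn (i + 1) (by omega)⟩
    · rintro ⟨x, hx⟩
      have hx' := hx
      rw [h0] at hx'
      obtain ⟨y, rfl⟩ := hx'
      exact ⟨y, rfl⟩
    · rw [LinearMap.ker_codRestrict]
      exact hd 0

theorem Res_of_PDle (n : ℕ) : ∀ M : ModuleCat.{u} R, PDle R n M → Res R M n := by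
  induction n with
  | zero =>
    intro M hM
    have hM' : Module.Projective R M := hM
    refine ⟨fun i => match i with
      | 0 => M
      | _ + 1 => ModuleCat.of R PUnit, fun i => 0, LinearMap.id, ?_, Function.surjective_id, ?_,
        ?_, ?_⟩
    · intro i
      match i with
      | 0 => exact hM'
      | i + 1 => exact (inferInstance : Module.Projective R PUnit.{u + 1})
    · rw [LinearMap.ker_id, LinearMap.range_zero]
    · intro i
      ext x
      simp only [LinearMap.mem_ker, LinearMap.zero_apply, LinearMap.mem_range,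
        exists_const]
    · intro i _
      exact (inferInstance : Subsingleton PUnit.{u + 1})
  | succ n ih =>
    rintro M ⟨P, _, _, π, hP, hπ, hK⟩
    obtain ⟨P', d', ε', hP', hε', h0', hd', hn'⟩ := ih (ModuleCat.of R (LinearMap.ker π)) hK
    let Q : ℕ → ModuleCat.{u} R := fun i => match i with
      | 0 => ModuleCat.of R P
      | i + 1 => P' i
    let d : ∀ i, Q (i + 1) →ₗ[R] Q i := fun i => match i with
      | 0 => (LinearMap.ker π).subtype ∘ₗ ε'
      | i + 1 => d' i
    refine ⟨Q, d, π, ?_, hπ, ?_, ?_, ?_⟩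
    · intro i
      match i with
      | 0 => exact hP
      | i + 1 => exact hP' i
    · change LinearMap.ker π = LinearMap.range ((LinearMap.ker π).subtype ∘ₗ ε')
      rw [LinearMap.range_comp, LinearMap.range_eq_top.mpr hε', Submodule.map_top,
        Submodule.range_subtype]
    · intro i
      match i with
      | 0 =>
        change LinearMap.ker ((LinearMap.ker π).subtype ∘ₗ ε') = LinearMap.range (d' 0)
        rw [LinearMap.ker_comp_of_ker_eq_bot _ (Submodule.ker_subtype _)]
        exact h0'
      | i + 1 => exact hd' i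
    · intro i hi
      match i with
      | 0 => omega
      | i + 1 => exact hn' i (by omega)

/-- The main theorem: Krause's question has a positive answer. -/
theorem main (R : Type u) [Ring R] (hA : IsArtinianRing R) (hA' : IsArtinianRing Rᵐᵒᵖ)
    (hclosed : ∀ N : ModuleCat.{u} R, IsZg R N → (¬ ∃ n, PDle R n N) →
      ∃ (X Y : ModuleCat.{u} R) (f : X →ₗ[R] Y),
        Module.FinitePresentation R X ∧ Module.FinitePresentation R Y ∧
        (∃ g : X →ₗ[R] N, ∀ h : Y →ₗ[R] N, h ∘ₗ f ≠ g) ∧
        ∀ M : ModuleCat.{u} R, IsZg R M → (∃ n, PDle R n M) →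
          ∀ g : X →ₗ[R] M, ∃ h : Y →ₗ[R] M, h ∘ₗ f = g) :
    ∃ n : ℕ, ∀ M : ModuleCat.{u} R, (∃ m, PDle R m M) → PDle R n M := by
  obtain ⟨D⟩ := exists_RData hA hA'
  by_contra hcon
  push Not at hcon
  choose M hM hM' using hcon
  have hopen : ∀ n, ∃ w : List (Fin D.L), w.length = n + 1 ∧ ¬ LE1 (phi D w) (psi D w) (M n) := by
    intro n
    by_contra hc
    push Not at hc
    exact hM' n (PDle_of_closed D n (M n) hc)
  let W : List (Fin D.L) → Prop := fun w => ∃ n, ¬ LE1 (phi D w) (psi D w) (M n)
  have hpre : ∀ w w', W (w ++ w') → W w := by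
    rintro w w' ⟨n, hn⟩
    refine ⟨n, fun h => hn fun a ha => ?_⟩
    exact psi_append D w w' _ a (h a (phi_append D w w' _ a ha))
  have hlen : ∀ n, ∃ w, W w ∧ w.length = n := by
    intro n
    obtain ⟨w, hw, hw'⟩ := hopen n
    refine ⟨w.take n, hpre _ (w.drop n) ?_, by simp [hw]⟩
    rw [List.take_append_drop]
    exact ⟨n, hw'⟩
  obtain ⟨s, hs⟩ := konig W hpre hlen
  have happ : ∀ k, (List.range (k + 1)).map s = (List.range k).map s ++ [s k] := by
    intro k
    rw [List.range_succ, List.map_append]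
    rfl
  obtain ⟨N, _, _, hN, hNopen, hNclosed⟩ := exists_point (M := fun n => (M n : Type u))
    (fun k => phi D ((List.range k).map s)) (fun k => psi D ((List.range k).map s))
    (fun k j => by
      rw [← LE1_iff, happ]
      exact phi_append D _ _ _)
    (fun k j => by
      rw [← LE1_iff, happ]
      exact psi_append D _ _ _)
    (fun k hk => by
      obtain ⟨n, hn⟩ := hs k
      exact hn ((LE1_iff _ _ _).mpr (hk n)))
  have hNpd : ¬ ∃ n, PDle R n N := by
    rintro ⟨n, hn⟩
    apply hNopen (n + 1)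
    rw [← LE1_iff]
    exact closed_of_PDle D n N hn _ (by simp)
  obtain ⟨X, Y, f, hX, hY, ⟨g, hg⟩, hall⟩ := hclosed (ModuleCat.of R N) hN hNpd
  obtain ⟨n', α, β, hαβ⟩ := exists_pair hX hY f
  have h1 : ¬ α.ev N ≤ β.ev N := by
    rw [hαβ]
    intro h
    obtain ⟨k, hk⟩ := h g
    exact hg k hk
  have h2 : ∃ j, ¬ α.ev (M j) ≤ β.ev (M j) := by
    by_contra hc
    push Not at hc
    exact h1 (hNclosed n' α β hc)
  obtain ⟨j, hj⟩ := h2
  obtain ⟨N', _, _, hN', hN'open, hN'closed⟩ := exists_point (M := fun _ : Unit => (M j : Type u))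
    (fun _ => α) (fun _ => β) (fun _ => LEf.refl _) (fun _ => LEf.refl _)
    (fun k hk => hj (hk ()))
  obtain ⟨m, hm⟩ := hM j
  have hN'pd : PDle R m N' := by
    refine PDle_of_closed D m N' fun w hw => ?_
    rw [LE1_iff]
    refine hN'closed 1 _ _ fun _ => ?_
    rw [← LE1_iff]
    exact closed_of_PDle D m (M j) hm w hw
  apply hN'open 0
  rw [hαβ]
  exact hall (ModuleCat.of R N') hN' ⟨m, hN'pd⟩

end

end Pool.Agent.Work.MP_95e4ab_al
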