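import Pool.Agent.Work.MP_95e4ab_al.Tree2

set_option autoImplicit false

namespace Pool.Agent.Work.MP_95e4ab_al

universe u v w

open MulOpposite

section

variable {R : Type u} [Ring R]

/-- The right module structure of a noetherian opposite ring. -/
theorem right_noeth [IsNoetherianRing Rᵐᵒᵖ] : IsNoetherian Rᵐᵒᵖ R := by
  let e : Rᵐᵒᵖ ≃ₗ[Rᵐᵒᵖ] R :=
    { toFun := unop
      invFun := op
      map_add' := fun x y => rfl
      map_smul' := fun r x => by
        change unop (r * x) = r • unop x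
        rw [unop_mul]
        rfl
      left_inv := fun x => rfl
      right_inv := fun x => rfl }
  have : IsNoetherian Rᵐᵒᵖ Rᵐᵒᵖ := ‹IsNoetherianRing Rᵐᵒᵖ›
  exact isNoetherian_of_linearEquiv e

/-- Generators of right kernels of matrices. -/
theorem right_ker [IsNoetherianRing Rᵐᵒᵖ] (m q : ℕ) (C : Fin m → Fin q → R) :
    ∃ (s : ℕ) (G : Fin q → Fin s → R), (∀ i t, ∑ j, C i j * G j t = 0) ∧
      ∀ v : Fin q → R, (∀ i, ∑ j, C i j * v j = 0) →
        ∃ u : Fin s → R, ∀ j, v j = ∑ t, G j t * u t := by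
  have : IsNoetherian Rᵐᵒᵖ R := right_noeth
  let K : Submodule Rᵐᵒᵖ (Fin q → R) :=
    { carrier := {v | ∀ i, ∑ j, C i j * v j = 0}
      zero_mem' := fun i => by simp
      add_mem' := by
        intro a b ha hb i
        simp only [Pi.add_apply, mul_add, Finset.sum_add_distrib]
        rw [ha i, hb i, add_zero]
      smul_mem' := by
        intro r a ha i
        have : ∀ j, C i j * (r • a) j = (C i j * a j) * unop r := fun j => by
          rw [Pi.smul_apply]
          change C i j * (a j * unop r) = _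
          rw [mul_assoc]
        simp only [this]
        rw [← Finset.sum_mul, ha i, zero_mul] }
  have hK : K.FG := IsNoetherian.noetherian K
  obtain ⟨s, g, hg⟩ := Submodule.fg_iff_exists_fin_generating_family.mp hK
  refine ⟨s, fun j t => g t j, fun i t => ?_, fun v hv => ?_⟩
  · have : g t ∈ K := by
      rw [← hg]
      exact Submodule.subset_span ⟨t, rfl⟩
    exact this i
  · have hvK : v ∈ K := hv
    rw [← hg, Submodule.mem_span_range_iff_exists_fun] at hvK
    obtain ⟨c, hc⟩ := hvK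
    refine ⟨fun t => unop (c t), fun j => ?_⟩
    rw [← hc, Finset.sum_apply]
    rfl

/-- Generators of a right ideal. -/
theorem right_gens [IsNoetherianRing Rᵐᵒᵖ] (I : Ideal R) [I.IsTwoSided] :
    ∃ (k : ℕ) (g : Fin k → R), (∀ i, g i ∈ I) ∧ ∀ r ∈ I, ∃ c : Fin k → R, r = ∑ i, g i * c i := by
  have : IsNoetherian Rᵐᵒᵖ R := right_noeth
  let K : Submodule Rᵐᵒᵖ R :=
    { carrier := {v | v ∈ I}
      zero_mem' := I.zero_mem
      add_mem' := fun ha hb => I.add_mem ha hb
      smul_mem' := fun r a ha => I.mul_mem_right (unop r) ha }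
  have hK : K.FG := IsNoetherian.noetherian K
  obtain ⟨s, g, hg⟩ := Submodule.fg_iff_exists_fin_generating_family.mp hK
  refine ⟨s, g, fun i => ?_, fun r hr => ?_⟩
  · have : g i ∈ K := by
      rw [← hg]
      exact Submodule.subset_span ⟨i, rfl⟩
    exact this
  · have hrK : r ∈ K := hr
    rw [← hg, Submodule.mem_span_range_iff_exists_fun] at hrK
    obtain ⟨c, hc⟩ := hrK
    exact ⟨fun t => unop (c t), hc.symm⟩

theorem inX_append {L k : ℕ} (x : Fin L → R) (g : Fin k → R) {l l' : ℕ} (hl : l ≤ l') {r : R}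
    (h : inX x l r) : inX (Fin.append x g) l' r := by
  obtain ⟨c, hc, rfl⟩ := h
  refine ⟨Fin.append c (fun _ => 0), fun i => ?_, ?_⟩
  · refine Fin.addCases (fun i => ?_) (fun i => ?_) i
    · intro hi
      rw [Fin.append_left]
      exact hc i (hl.trans hi)
    · intro _
      rw [Fin.append_right]
  · rw [Fin.sum_univ_add]
    simp

/-- The chain of generators of the radical. -/
theorem exists_chain [IsNoetherianRing Rᵐᵒᵖ] (J : Ideal R) [J.IsTwoSided] (n : ℕ)
    (hn : J ^ n = ⊥) : ∀ t s : ℕ, t + s = n → ∃ (L : ℕ) (x : Fin L → R),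
      (∀ r, inX x L r ↔ r ∈ J ^ s) ∧ ∀ (l : Fin L) (r : R), r ∈ J → inX x l (x l * r) := by
  intro t
  induction t with
  | zero =>
    intro s hs
    rw [zero_add] at hs
    subst hs
    refine ⟨0, fun i => i.elim0, fun r => ?_, fun l => l.elim0⟩
    rw [hn, Submodule.mem_bot]
    constructor
    · rintro ⟨c, _, rfl⟩
      simp
    · rintro rfl
      exact ⟨0, fun i => i.elim0, by simp⟩
  | succ t ih =>
    intro s hs
    obtain ⟨L, x, hx, hx'⟩ := ih (s + 1) (by omega)
    obtain ⟨k, g, hg, hg'⟩ := right_gens (J ^ s)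
    refine ⟨L + k, Fin.append x g, fun r => ⟨?_, fun hr => ?_⟩, fun l r hr => ?_⟩
    · rintro ⟨c, _, rfl⟩
      refine Ideal.sum_mem _ fun i _ => ?_
      refine Ideal.mul_mem_right _ _ ?_
      refine Fin.addCases (fun i => ?_) (fun i => ?_) i
      · rw [Fin.append_left]
        have h1 : x i ∈ J ^ (s + 1) := (hx _).mp (inX_gen x L i i.2)
        have h2 : J ^ (s + 1) ≤ J ^ s := by
          rw [Ideal.IsTwoSided.pow_succ]
          exact Ideal.mul_le_right
        exact h2 h1
      · rw [Fin.append_right]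
        exact hg i
    · obtain ⟨c, hc⟩ := hg' r hr
      refine ⟨Fin.append (fun _ => 0) c, fun i hi => absurd i.2 (by omega), ?_⟩
      rw [Fin.sum_univ_add]
      simpa using hc
    · refine Fin.addCases (fun l => ?_) (fun l => ?_) l
      · rw [Fin.append_left]
        exact inX_append x g (by simp) (hx' l r hr)
      · rw [Fin.append_right]
        refine inX_append x g (l := L) (by simp) ((hx _).mpr ?_)
        rw [Submodule.pow_succ]
        exact Ideal.mul_mem_mul (hg l) hr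

/-- Complementary idempotents modulo the radical. -/
theorem exists_idem (J : Ideal R) [J.IsTwoSided] [IsSemisimpleRing (R ⧸ J)] (A : R → Prop)
    (hadd : ∀ r s, A r → A s → A (r + s)) (hmul : ∀ r s, A r → A (r * s)) (hJ : ∀ r ∈ J, A r) :
    ∃ e : R, A (1 - e) ∧ ∀ r, A r → e * r ∈ J := by
  have hss : IsSemisimpleRing (R ⧸ J)ᵐᵒᵖ := isSemisimpleRing_mulOpposite_iff.mpr inferInstance
  let 𝔄 : Submodule (R ⧸ J)ᵐᵒᵖ (R ⧸ J)ᵐᵒᵖ :=
    { carrier := {z | ∃ r, A r ∧ z = op (Ideal.Quotient.mk J r)}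
      zero_mem' := ⟨0, hJ 0 J.zero_mem, by simp⟩
      add_mem' := by
        rintro _ _ ⟨r, hr, rfl⟩ ⟨s, hs, rfl⟩
        exact ⟨r + s, hadd _ _ hr hs, by simp⟩
      smul_mem' := by
        rintro c _ ⟨r, hr, rfl⟩
        obtain ⟨s, hs⟩ := Ideal.Quotient.mk_surjective (unop c)
        refine ⟨r * s, hmul r s hr, ?_⟩
        rw [smul_eq_mul, map_mul, hs]
        rfl }
  obtain ⟨𝔅, h𝔅⟩ := exists_isCompl 𝔄
  obtain ⟨a, b, ⟨r, hr, rfl⟩, hb, hab⟩ :=
    Submodule.codisjoint_iff_exists_add_eq.mp h𝔅.codisjoint (1 : (R ⧸ J)ᵐᵒᵖ)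
  have hb' : b = op (Ideal.Quotient.mk J (1 - r)) := by
    rw [map_sub, map_one, op_sub, op_one, ← hab]
    abel
  refine ⟨1 - r, by simpa using hr, fun s hs => ?_⟩
  have h1 : op (Ideal.Quotient.mk J ((1 - r) * s)) ∈ 𝔅 := by
    rw [map_mul, op_mul, ← hb']
    exact 𝔅.smul_mem _ hb
  have h2 : op (Ideal.Quotient.mk J ((1 - r) * s)) ∈ 𝔄 := by
    refine ⟨(1 - r) * s, ?_, rfl⟩
    have : (1 - r) * s = s + r * (-s) := by
      rw [sub_mul, one_mul, mul_neg, sub_eq_add_neg]
    rw [this]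
    exact hadd _ _ hs (hmul r _ hr)
  have h3 : op (Ideal.Quotient.mk J ((1 - r) * s)) = 0 := by
    have := h𝔅.disjoint.le_bot ⟨h2, h1⟩
    simpa using this
  rw [op_eq_zero_iff] at h3
  exact Ideal.Quotient.eq_zero_iff_mem.mp h3

/-- Projectivity criterion over semiprimary rings. -/
theorem proj_crit (J : Ideal R) [J.IsTwoSided] [IsSemisimpleRing (R ⧸ J)] (hnil : IsNilpotent J)
    (F M : Type u) [AddCommGroup F] [AddCommGroup M] [Module R F] [Module R M]
    [Module.Projective R F] (π : F →ₗ[R] M) (hπ : Function.Surjective π)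
    (h : ∀ κ : LinearMap.ker π, (κ : F) ∈ J • (⊤ : Submodule R F) →
      κ ∈ J • (⊤ : Submodule R (LinearMap.ker π))) : Module.Projective R M := by
  let K := LinearMap.ker π
  let Q := F ⧸ (J • (⊤ : Submodule R F))
  let mk : F →ₗ[R] Q := Submodule.mkQ _
  have hQ : IsSemisimpleModule R Q :=
    (Module.IsTorsionBySet.isSemisimpleModule_iff
      (Module.isTorsionBySet_quotient_ideal_smul F J)).mp inferInstance
  let Kb : Submodule R Q := K.map mk
  obtain ⟨C, hC⟩ := exists_isCompl Kb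
  let p : Q →ₗ[R] Kb := Kb.projectionOnto C hC
  let qK : K →ₗ[R] Kb := (mk ∘ₗ K.subtype).codRestrict Kb (fun x => ⟨x, x.2, rfl⟩)
  have hqK : Function.Surjective qK := by
    rintro ⟨_, x, hx, rfl⟩
    exact ⟨⟨x, hx⟩, rfl⟩
  obtain ⟨τ, hτ⟩ := Module.projective_lifting_property qK (p ∘ₗ mk) hqK
  have hτ' : ∀ f, mk (τ f : F) = (p (mk f) : Q) := fun f =>
    congrArg Subtype.val (LinearMap.congr_fun hτ f)
  let j : K →ₗ[R] K := LinearMap.id - τ ∘ₗ K.subtype
  have hj : ∀ κ : K, j κ ∈ J • (⊤ : Submodule R K) := by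
    intro κ
    apply h
    have h1 : mk ((j κ : K) : F) = 0 := by
      change mk ((κ : F) - (τ (κ : F) : F)) = 0
      rw [map_sub, hτ']
      have h2 : (mk (κ : F)) ∈ Kb := ⟨κ, κ.2, rfl⟩
      have h3 : p (mk (κ : F)) = ⟨mk (κ : F), h2⟩ := Submodule.projectionOnto_apply_left hC ⟨_, h2⟩
      rw [h3, sub_self]
    exact (Submodule.Quotient.mk_eq_zero _).mp h1
  have hpow : ∀ (n : ℕ) (κ : K), (j ^ n) κ ∈ J ^ n • (⊤ : Submodule R K) := by
    intro n
    induction n with
    | zero =>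
      intro κ
      rw [Submodule.pow_zero, Ideal.one_eq_top, Submodule.top_smul]
      trivial
    | succ n ih =>
      intro κ
      have h1 : (j ^ (n + 1)) κ = j ((j ^ n) κ) := by
        rw [pow_succ']
        rfl
      rw [h1]
      have h2 : ∀ y ∈ J ^ n • (⊤ : Submodule R K), j y ∈ J ^ (n + 1) • (⊤ : Submodule R K) := by
        intro y hy
        have h3 : j y ∈ (J ^ n • (⊤ : Submodule R K)).map j := ⟨y, hy, rfl⟩
        rw [Submodule.map_smul''] at h3
        have h4 : Submodule.map j ⊤ ≤ J • (⊤ : Submodule R K) := by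
          rintro _ ⟨z, _, rfl⟩
          exact hj z
        have h5 := Submodule.smul_mono (le_refl (J ^ n)) h4 h3
        rw [← Submodule.mul_smul, ← Submodule.pow_succ] at h5
        exact h5
      exact h2 _ (ih κ)
  have hjnil : IsNilpotent (j : Module.End R K) := by
    obtain ⟨n, hn⟩ := hnil
    refine ⟨n, ?_⟩
    ext κ
    have := hpow n κ
    rw [hn, Submodule.zero_eq_bot, Submodule.bot_smul, Submodule.mem_bot] at this
    change (((j ^ n) κ : K) : F) = 0
    rw [this]
    rfl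
  obtain ⟨U, hU⟩ := hjnil.isUnit_one_sub
  let ρ : F →ₗ[R] K := (↑(U⁻¹) : Module.End R K) ∘ₗ τ
  have hρ : ∀ κ : K, ρ (κ : F) = κ := by
    intro κ
    have h1 : τ (κ : F) = (↑U : Module.End R K) κ := by
      rw [hU]
      change τ (κ : F) = κ - (κ - τ (κ : F))
      abel
    change (↑(U⁻¹) : Module.End R K) (τ (κ : F)) = κ
    rw [h1, ← Module.End.mul_apply, Units.inv_mul]
    rfl
  -- the section of `π`
  let σ0 : F →ₗ[R] F := LinearMap.id - K.subtype ∘ₗ ρ
  have hσ0 : K ≤ LinearMap.ker σ0 := by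
    intro κ hκ
    rw [LinearMap.mem_ker]
    change κ - ((ρ κ : K) : F) = 0
    have := hρ ⟨κ, hκ⟩
    change ρ κ = ⟨κ, hκ⟩ at this
    rw [this, sub_self]
  let eq : (F ⧸ K) ≃ₗ[R] M := π.quotKerEquivOfSurjective hπ
  let σ : M →ₗ[R] F := (K.liftQ σ0 hσ0) ∘ₗ eq.symm.toLinearMap
  refine Module.Projective.of_split σ π ?_
  ext m
  obtain ⟨f, rfl⟩ := hπ m
  have h1 : eq.symm (π f) = Submodule.Quotient.mk f := by
    rw [LinearEquiv.symm_apply_eq]
    rfl
  change π ((K.liftQ σ0 hσ0) (eq.symm (π f))) = π f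
  rw [h1]
  change π (f - ((ρ f : K) : F)) = π f
  rw [map_sub]
  have : π ((ρ f : K) : F) = 0 := (ρ f).2
  rw [this, sub_zero]

theorem XM_eq_smul {L : ℕ} (x : Fin L → R) (J : Ideal R) (hx : ∀ r, inX x L r ↔ r ∈ J)
    (M : Type v) [AddCommGroup M] [Module R M] (m : M) :
    m ∈ XM x L M ↔ m ∈ J • (⊤ : Submodule R M) := by
  constructor
  · rintro ⟨f, _, rfl⟩
    refine Submodule.sum_mem _ fun i _ => ?_
    exact Submodule.smul_mem_smul ((hx _).mp (inX_gen x L i i.2)) Submodule.mem_top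
  · intro hm
    refine Submodule.smul_induction_on hm (fun r hr n _ => ?_) (fun a b ha hb => add_mem ha hb)
    exact inX_smul ((hx r).mpr hr) n

/-- The data of an artinian ring. -/
theorem exists_RData (h1 : IsArtinianRing R) (h2 : IsArtinianRing Rᵐᵒᵖ) : Nonempty (RData R) := by
  have hN : IsNoetherianRing Rᵐᵒᵖ := inferInstance
  let J : Ideal R := Ring.jacobson R
  have hss : IsSemisimpleRing (R ⧸ J) := IsSemiprimaryRing.isSemisimpleRing
  have hnil : IsNilpotent J := IsSemiprimaryRing.isNilpotent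
  obtain ⟨n, hn⟩ := hnil
  -- make `n ≥ 1`
  have hn' : J ^ (n + 1) = ⊥ := by
    rw [Ideal.IsTwoSided.pow_succ, hn]
    simp
  obtain ⟨L, x, hx, hx'⟩ := exists_chain J (n + 1) hn' n 1 rfl
  simp only [Submodule.pow_one] at hx
  have hidem : ∀ l : Fin L, ∃ e : R, inX x l (x l * (1 - e)) ∧
      ∀ r, inX x l (x l * r) → e * r ∈ J := by
    intro l
    refine exists_idem J (fun r => inX x l (x l * r)) ?_ ?_ ?_
    · rintro r s ⟨c, hc, hcr⟩ ⟨d, hd, hds⟩
      refine ⟨c + d, fun i hi => by simp [hc i hi, hd i hi], ?_⟩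
      rw [mul_add, hcr, hds]
      simp [mul_add, Finset.sum_add_distrib]
    · rintro r s ⟨c, hc, hcr⟩
      refine ⟨fun i => c i * s, fun i hi => by simp [hc i hi], ?_⟩
      rw [← mul_assoc, hcr, Finset.sum_mul]
      simp [mul_assoc]
    · intro r hr
      exact hx' l r hr
  choose e he he' using hidem
  exact ⟨{
    L := L
    x := x
    e := e
    left := fun r s hs => (hx _).mpr (J.mul_mem_left r ((hx _).mp hs))
    h1 := fun l r hr => hx' l r ((hx _).mp hr)
    h2 := fun l => by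
      have := he l
      rwa [mul_sub, mul_one] at this
    h3 := fun l r hr => (hx _).mpr (he' l r hr)
    crit := by
      intro F M _ _ _ _ _ π hπ hcrit
      refine proj_crit J ⟨n, hn⟩ F M π hπ fun κ hκ => ?_
      rw [← XM_eq_smul x J hx]
      exact hcrit κ ((XM_eq_smul x J hx F _).mpr hκ)
    ker := right_ker }⟩

end

end Pool.Agent.Work.MP_95e4ab_al
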