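import Mathlib

set_option autoImplicit false

namespace Pool.Agent.Work.MP_95e4ab_al

universe u v w

/-- The circle group. -/
abbrev TT : Type := AddCircle (1 : ℝ)

/-- Characters extend from subgroups (in the form: a character vanishing on the kernel of `γ`
factors through `γ`). -/
theorem char_ext {A : Type u} {B : Type v} [AddCommGroup A] [AddCommGroup B]
    (γ : A →+ B) (χ : A →+ TT) (h : ∀ a, γ a = 0 → χ a = 0) :
    ∃ ω : B →+ TT, ∀ a, ω (γ a) = χ a := by
  have hle : γ.ker ≤ χ.ker := fun a ha => h a ha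
  let g : A ⧸ γ.ker →+ TT := QuotientAddGroup.lift γ.ker χ hle
  obtain ⟨ω, hω⟩ := (Module.Baer.of_divisible TT).extension_property_addMonoidHom
    (QuotientAddGroup.kerLift γ) (QuotientAddGroup.kerLift_injective γ) g
  refine ⟨ω, fun a => ?_⟩
  have := DFunLike.congr_fun hω (QuotientAddGroup.mk a)
  simpa [g] using this

/-- Characters to the circle separate points. -/
theorem char_sep {A : Type u} [AddCommGroup A] {a : A} (ha : a ≠ 0) : ∃ χ : A →+ TT, χ a ≠ 0 := by
  obtain ⟨c, hc⟩ := CharacterModule.exists_character_apply_ne_zero_of_ne_zero ha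
  let ι : AddCircle (1 : ℚ) →+ TT :=
    QuotientAddGroup.map (AddSubgroup.zmultiples (1 : ℚ)) (AddSubgroup.zmultiples (1 : ℝ))
      ((Rat.castHom ℝ : ℚ →+* ℝ) : ℚ →+ ℝ) (by
        intro x hx
        obtain ⟨n, rfl⟩ := AddSubgroup.mem_zmultiples_iff.mp hx
        refine AddSubgroup.mem_zmultiples_iff.mpr ⟨n, ?_⟩
        simp)
  have hι : ∀ x, ι x = 0 → x = 0 := by
    intro x
    induction x using QuotientAddGroup.induction_on with
    | H q =>
      intro hq
      have h1 : ((q : ℝ) : AddCircle (1 : ℝ)) = 0 := hq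
      rw [AddCircle.coe_eq_zero_iff] at h1
      obtain ⟨n, hn⟩ := h1
      have h2 : (q : AddCircle (1 : ℚ)) = 0 := by
        rw [AddCircle.coe_eq_zero_iff]
        refine ⟨n, ?_⟩
        have : ((n : ℚ) : ℝ) = (q : ℝ) := by
          rw [← hn]; simp
        have h3 : (n : ℚ) = q := by exact_mod_cast this
        simp [h3]
      exact h2
  let c' : A →+ AddCircle (1 : ℚ) := c
  refine ⟨ι.comp c', fun h => hc ?_⟩
  exact hι _ h

/-- Characters separate points from subgroups. -/
theorem char_sep_subgroup {A : Type u} [AddCommGroup A] (H : AddSubgroup A) {a : A} (ha : a ∉ H) :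
    ∃ χ : A →+ TT, (∀ x ∈ H, χ x = 0) ∧ χ a ≠ 0 := by
  have h1 : (QuotientAddGroup.mk' H a) ≠ 0 := by
    intro h
    exact ha ((QuotientAddGroup.eq_zero_iff a).mp h)
  obtain ⟨χ, hχ⟩ := char_sep h1
  refine ⟨χ.comp (QuotientAddGroup.mk' H), fun x hx => ?_, hχ⟩
  have : (QuotientAddGroup.mk' H x) = 0 := (QuotientAddGroup.eq_zero_iff x).mpr hx
  simp only [AddMonoidHom.comp_apply, this, map_zero]

end Pool.Agent.Work.MP_95e4ab_al
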