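import Pool.Agent.Work.MP_95e4ab_al.PPForm

set_option autoImplicit false

namespace Pool.Agent.Work.MP_95e4ab_al

universe u v w

open Filter Topology

section

variable {R : Type u} [Ring R] {P : Type v} [AddCommGroup P] [Module R P] [TopologicalSpace P]
  [CompactSpace P] [T2Space P] [ContinuousAdd P] [ContinuousConstSMul R P]

/-- Linear limits along ultrafilters. -/
theorem exists_lim {α : Type w} (U : Ultrafilter α) :
    ∃ L : (α → P) →ₗ[R] P, ∀ f, Tendsto f U (𝓝 (L f)) := by
  have h : ∀ f : α → P, ∃ p, Tendsto f U (𝓝 p) :=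
    fun f => ⟨(U.map f).lim, (U.map f).le_nhds_lim⟩
  choose L hL using h
  exact ⟨{ toFun := L
           map_add' := fun f g => tendsto_nhds_unique (hL (f + g)) ((hL f).add (hL g))
           map_smul' := fun r f => tendsto_nhds_unique (hL (r • f)) ((hL f).const_smul r) }, hL⟩

/-- Compact modules satisfy the Jensen-Lenzing criterion for pure injectivity. -/
theorem exists_sum_ext (I : Type w) :
    ∃ g : (I → P) →ₗ[R] P, ∀ x : I →₀ P, g ⇑x = x.sum (fun _ m => m) := by
  classical
  let U : Ultrafilter (Finset I) := Ultrafilter.of atTop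
  obtain ⟨L, hL⟩ := exists_lim (R := R) (P := P) U
  let S : (I → P) →ₗ[R] (Finset I → P) :=
    { toFun := fun x s => ∑ i ∈ s, x i
      map_add' := fun x y => by
        funext s
        simp [Finset.sum_add_distrib]
      map_smul' := fun r x => by
        funext s
        simp [Finset.smul_sum] }
  refine ⟨L ∘ₗ S, fun x => ?_⟩
  have h1 : Tendsto (S x) U (𝓝 (L (S x))) := hL _
  have h2 : Tendsto (S x) U (𝓝 (x.sum fun _ m => m)) := by
    refine Tendsto.congr' ?_ tendsto_const_nhds
    have h3 : ∀ᶠ s : Finset I in atTop, x.support ⊆ s := eventually_ge_atTop x.support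
    have h4 := h3.filter_mono (Ultrafilter.of_le atTop)
    filter_upwards [h4] with s hs
    change (x.sum fun _ m => m) = ∑ i ∈ s, x i
    rw [Finsupp.sum]
    exact Finset.sum_subset hs fun i _ hi => by simpa using hi
  exact tendsto_nhds_unique h1 h2

/-- In a compact module, pp-type inclusion is witnessed by an endomorphism. -/
theorem exists_endo {n : ℕ} (a b : Fin n → P) (h : ∀ φ : PP R n, a ∈ φ.ev P → b ∈ φ.ev P) :
    ∃ t : P →ₗ[R] P, ∀ s, t (a s) = b s := by
  classical
  -- for each finite set of relations a function respecting them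
  have key : ∀ E : Finset (P →₀ R), ∃ t : P → P, (∀ s, t (a s) = b s) ∧
      ∀ ρ ∈ E, Finsupp.linearCombination R (id : P → P) ρ = 0 →
        Finsupp.linearCombination R t ρ = 0 := by
    intro E
    let V : Finset P := Finset.univ.image a ∪ E.biUnion fun ρ => ρ.support
    let E' : Finset (P →₀ R) := E.filter fun ρ => Finsupp.linearCombination R (id : P → P) ρ = 0
    have haV : ∀ s, a s ∈ V := fun s => by
      simp only [V, Finset.mem_union, Finset.mem_image, Finset.mem_univ, true_and]
      exact Or.inl ⟨s, rfl⟩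
    have hEV : ∀ ρ ∈ E, ρ.support ⊆ V := fun ρ hρ x hx => by
      simp only [V, Finset.mem_union, Finset.mem_biUnion]
      exact Or.inr ⟨ρ, hρ, hx⟩
    let φ : PP R n := PP.ofFin (ι := Fin n ⊕ E') (κ := V)
      (Sum.elim (fun i s => if i = s then 1 else 0) (fun _ _ => 0))
      (Sum.elim (fun i v => if a i = v then -1 else 0) (fun ρ v => (ρ : P →₀ R) v))
    have hsum : ∀ (t : P → P) (ρ : P →₀ R), ρ.support ⊆ V →
        ∑ v : V, ρ v • t v = Finsupp.linearCombination R t ρ := by
      intro t ρ hρ
      rw [Finsupp.linearCombination_apply, Finsupp.sum_of_support_subset _ hρ _ (by simp)]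
      exact Finset.sum_coe_sort V (fun v => ρ v • t v)
    have ha : a ∈ φ.ev P := by
      rw [PP.mem_ofFin]
      refine ⟨fun v => v, ?_⟩
      rintro (i | ρ)
      · simp only [Sum.elim_inl, ite_smul, one_smul, zero_smul, neg_smul]
        rw [Finset.sum_ite_eq Finset.univ i, if_pos (Finset.mem_univ _),
          Finset.sum_eq_single (⟨a i, haV i⟩ : V)]
        · simp
        · intro v _ hv
          rw [if_neg]
          intro hc
          exact hv (Subtype.ext hc.symm)
        · simp
      · simp only [Sum.elim_inr, zero_smul, Finset.sum_const_zero, zero_add]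
        have hρ := ρ.2
        simp only [E', Finset.mem_filter] at hρ
        have := hsum id ρ (hEV _ hρ.1)
        rw [hρ.2] at this
        exact this
    have hb := h φ ha
    rw [PP.mem_ofFin] at hb
    obtain ⟨y, hy⟩ := hb
    refine ⟨fun x => if hx : x ∈ V then y ⟨x, hx⟩ else 0, fun s => ?_, fun ρ hρ hρ0 => ?_⟩
    · change (if hx : a s ∈ V then y ⟨a s, hx⟩ else 0) = b s
      rw [dif_pos (haV s)]
      have h1 := hy (Sum.inl s)
      simp only [Sum.elim_inl, ite_smul, one_smul, zero_smul, neg_smul] at h1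
      rw [Finset.sum_ite_eq Finset.univ s, if_pos (Finset.mem_univ _),
          Finset.sum_eq_single (⟨a s, haV s⟩ : V)] at h1
      · simp only [if_true] at h1
        rw [add_neg_eq_zero] at h1
        exact h1.symm
      · intro v _ hv
        rw [if_neg]
        intro hc
        exact hv (Subtype.ext hc.symm)
      · simp
    · rw [← hsum _ ρ (hEV ρ hρ)]
      have h1 := hy (Sum.inr ⟨ρ, Finset.mem_filter.mpr ⟨hρ, hρ0⟩⟩)
      simp only [Sum.elim_inr, zero_smul, Finset.sum_const_zero, zero_add] at h1
      rw [← h1]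
      refine Finset.sum_congr rfl fun v _ => ?_
      rw [dif_pos v.2]
  choose t ht ht' using key
  let U : Ultrafilter (Finset (P →₀ R)) := Ultrafilter.of atTop
  obtain ⟨L, hL⟩ := exists_lim (R := R) (P := P) U
  let T : P → P := fun x => L (fun E => t E x)
  have hT : ∀ x, Tendsto (fun E => t E x) U (𝓝 (T x)) := fun x => hL _
  have hrel : ∀ ρ : P →₀ R, Finsupp.linearCombination R (id : P → P) ρ = 0 →
      Finsupp.linearCombination R T ρ = 0 := by
    intro ρ hρ
    have h1 : Tendsto (fun E => Finsupp.linearCombination R (t E) ρ) U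
        (𝓝 (Finsupp.linearCombination R T ρ)) := by
      simp only [Finsupp.linearCombination_apply, Finsupp.sum]
      exact tendsto_finsetSum _ fun x _ => (hT x).const_smul _
    have h2 : Tendsto (fun E => Finsupp.linearCombination R (t E) ρ) U (𝓝 0) := by
      refine Tendsto.congr' ?_ tendsto_const_nhds
      have h3 : ∀ᶠ E : Finset (P →₀ R) in atTop, ({ρ} : Finset (P →₀ R)) ⊆ E :=
        eventually_ge_atTop _
      filter_upwards [h3.filter_mono (Ultrafilter.of_le atTop)] with E hE
      exact (ht' E ρ (hE (Finset.mem_singleton_self ρ)) hρ).symm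
    exact tendsto_nhds_unique h1 h2
  refine ⟨{ toFun := T, map_add' := fun x y => ?_, map_smul' := fun r x => ?_ }, fun s => ?_⟩
  · have := hrel (Finsupp.single (x + y) 1 - Finsupp.single x 1 - Finsupp.single y 1)
      (by simp [map_sub, Finsupp.linearCombination_single])
    simp only [map_sub, Finsupp.linearCombination_single, one_smul] at this
    rw [sub_sub, sub_eq_zero] at this
    exact this
  · have := hrel (Finsupp.single (r • x) 1 - Finsupp.single x r)
      (by simp [map_sub, Finsupp.linearCombination_single])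
    simp only [map_sub, Finsupp.linearCombination_single, one_smul] at this
    rw [sub_eq_zero] at this
    exact this
  · have h1 := hT (a s)
    simp only [ht] at h1
    exact tendsto_nhds_unique h1 tendsto_const_nhds

/-- The minimal idempotent fixing a tuple. -/
theorem exists_hull {n : ℕ} (a : Fin n → P) :
    ∃ e : P →ₗ[R] P, (∀ x, e (e x) = e x) ∧ (∀ s, e (a s) = a s) ∧
      ∀ t : P →ₗ[R] P, (∀ s, t (a s) = a s) →
        ∃ s : P →ₗ[R] P, ∀ x, s (e (t (e x))) = e x := by
  classical
  let E : Set (P → P) := {f | (∀ x y, f (x + y) = f x + f y) ∧ (∀ (r : R) x, f (r • x) = r • f x) ∧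
    ∀ s, f (a s) = a s}
  have hEclosed : IsClosed E := by
    have h1 : IsClosed {f : P → P | ∀ x y, f (x + y) = f x + f y} := by
      simp only [Set.ofPred_forall]
      refine isClosed_iInter fun x => isClosed_iInter fun y => ?_
      exact isClosed_eq (continuous_apply _) ((continuous_apply x).add (continuous_apply y))
    have h2 : IsClosed {f : P → P | ∀ (r : R) x, f (r • x) = r • f x} := by
      simp only [Set.ofPred_forall]
      refine isClosed_iInter fun r => isClosed_iInter fun x => ?_
      exact isClosed_eq (continuous_apply _) ((continuous_apply x).const_smul r)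
    have h3 : IsClosed {f : P → P | ∀ s, f (a s) = a s} := by
      simp only [Set.ofPred_forall]
      refine isClosed_iInter fun s => ?_
      exact isClosed_eq (continuous_apply _) continuous_const
    exact h1.inter (h2.inter h3)
  have hEcomp : ∀ f ∈ E, ∀ g ∈ E, (fun x => f (g x)) ∈ E := by
    rintro f ⟨hf1, hf2, hf3⟩ g ⟨hg1, hg2, hg3⟩
    refine ⟨fun x y => ?_, fun r x => ?_, fun s => ?_⟩
    · change f (g (x + y)) = f (g x) + f (g y)
      rw [hg1, hf1]
    · change f (g (r • x)) = r • f (g x)
      rw [hg2, hf2]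
    · change f (g (a s)) = a s
      rw [hg3, hf3]
  have hEid : (fun x => x) ∈ E := ⟨fun x y => rfl, fun r x => rfl, fun s => rfl⟩
  let 𝒮 : Set (Set (P → P)) := {L | L ⊆ E ∧ IsClosed L ∧ L.Nonempty ∧
    ∀ f ∈ E, ∀ g ∈ L, (fun x => f (g x)) ∈ L}
  have hzorn : ∃ L, L ⊆ E ∧ Minimal (· ∈ 𝒮) L := by
    refine zorn_superset_nonempty 𝒮 ?_ E ⟨subset_rfl, hEclosed, ⟨_, hEid⟩, hEcomp⟩
    intro c hc hchain hne
    refine ⟨⋂₀ c, ⟨?_, ?_, ?_, ?_⟩, fun s hs => Set.sInter_subset_of_mem hs⟩
    · obtain ⟨L, hL⟩ := hne
      exact (Set.sInter_subset_of_mem hL).trans (hc hL).1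
    · exact isClosed_sInter fun t ht => (hc ht).2.1
    · have : Nonempty c := hne.to_subtype
      refine IsCompact.nonempty_sInter_of_directed_nonempty_isCompact_isClosed ?_ ?_ ?_ ?_
      · exact IsChain.directedOn hchain.symm
      · exact fun U hU => (hc hU).2.2.1
      · exact fun U hU => (hc hU).2.1.isCompact
      · exact fun U hU => (hc hU).2.1
    · intro f hf g hg
      rw [Set.mem_sInter] at hg ⊢
      exact fun t ht => (hc ht).2.2.2 f hf g (hg t ht)
  obtain ⟨L, -, hLmin⟩ := hzorn
  obtain ⟨⟨hLE, hLclosed, hLne, hLideal⟩, hmin⟩ := hLmin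
  -- an idempotent in `L`
  have hidem : ∃ e ∈ L, (fun x => e (e x)) = e := by
    let : TopologicalSpace (Function.End P) := inferInstanceAs (TopologicalSpace (P → P))
    have : T2Space (Function.End P) := inferInstanceAs (T2Space (P → P))
    have hcont : ∀ r : Function.End P, Continuous (· * r) := by
      intro r
      change Continuous (fun (f : P → P) => (fun x => f (r x)))
      exact continuous_pi fun x => continuous_apply (r x)
    obtain ⟨m, hm, hmm⟩ := exists_idempotent_in_compact_subsemigroup (M := Function.End P) hcont L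
      hLne hLclosed.isCompact (by
        intro x hx y hy
        exact hLideal x (hLE hx) y hy)
    exact ⟨m, hm, hmm⟩
  obtain ⟨e, heL, hee⟩ := hidem
  have heE := hLE heL
  let toLin : ∀ f ∈ E, P →ₗ[R] P := fun f hf =>
    { toFun := f, map_add' := hf.1, map_smul' := hf.2.1 }
  refine ⟨toLin e heE, fun x => congrFun hee x, heE.2.2, fun t ht => ?_⟩
  have htE : (t : P → P) ∈ E := ⟨t.map_add, t.map_smul, ht⟩
  have hg : (fun x => e (t (e x))) ∈ L :=
    hLideal e heE _ (hLideal t htE e heL)
  let L' : Set (P → P) := (fun (s : P → P) => (fun x => s (e (t (e x))))) '' E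
  have hL'S : L' ∈ 𝒮 := by
    refine ⟨?_, ?_, ?_, ?_⟩
    · rintro _ ⟨s, hs, rfl⟩
      exact hEcomp s hs _ (hLE hg)
    · refine IsCompact.isClosed (IsCompact.image hEclosed.isCompact ?_)
      exact continuous_pi fun x => continuous_apply _
    · exact ⟨_, ⟨_, hEid, rfl⟩⟩
    · rintro f hf _ ⟨s, hs, rfl⟩
      exact ⟨fun x => f (s x), hEcomp f hf s hs, rfl⟩
  have hL'L : L' ⊆ L := by
    rintro _ ⟨s, hs, rfl⟩
    exact hLideal s hs _ hg
  obtain ⟨s, hs, hse⟩ := hmin hL'S hL'L heL
  exact ⟨toLin s hs, fun x => congrFun hse x⟩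

end

end Pool.Agent.Work.MP_95e4ab_al
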