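import Pool.Agent.Work.MP_95e4ab_al.Chars

set_option autoImplicit false

namespace Pool.Agent.Work.MP_95e4ab_al

universe u v w

open MulOpposite

/-- The right module structure on the character group of a left module. -/
@[reducible] def dualOp {R : Type u} [Ring R] {M : Type v} [AddCommGroup M] [Module R M] :
    Module Rᵐᵒᵖ (M →+ TT) where
  smul r f :=
    { toFun := fun x => f (unop r • x)
      map_zero' := by simp
      map_add' := fun x y => by simp }
  one_smul f := by
    apply AddMonoidHom.ext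
    intro x
    change f (unop (1 : Rᵐᵒᵖ) • x) = f x
    simp
  mul_smul r s f := by
    apply AddMonoidHom.ext
    intro x
    change f (unop (r * s) • x) = f (unop s • (unop r • x))
    rw [unop_mul, mul_smul]
  smul_zero r := by
    apply AddMonoidHom.ext
    intro x
    rfl
  smul_add r f g := by
    apply AddMonoidHom.ext
    intro x
    rfl
  add_smul r s f := by
    apply AddMonoidHom.ext
    intro x
    change f (unop (r + s) • x) = f (unop r • x) + f (unop s • x)
    rw [unop_add, add_smul, map_add]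
  zero_smul f := by
    apply AddMonoidHom.ext
    intro x
    change f (unop (0 : Rᵐᵒᵖ) • x) = 0
    simp

/-- The left module structure on the character group of a right module. -/
@[reducible] def dualL {R : Type u} [Ring R] {X : Type v} [AddCommGroup X] [Module Rᵐᵒᵖ X] :
    Module R (X →+ TT) where
  smul r f :=
    { toFun := fun x => f (op r • x)
      map_zero' := by simp
      map_add' := fun x y => by simp }
  one_smul f := by
    apply AddMonoidHom.ext
    intro x
    change f (op (1 : R) • x) = f x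
    simp
  mul_smul r s f := by
    apply AddMonoidHom.ext
    intro x
    change f (op (r * s) • x) = f (op s • (op r • x))
    rw [op_mul, mul_smul]
  smul_zero r := by
    apply AddMonoidHom.ext
    intro x
    rfl
  smul_add r f g := by
    apply AddMonoidHom.ext
    intro x
    rfl
  add_smul r s f := by
    apply AddMonoidHom.ext
    intro x
    change f (op (r + s) • x) = f (op r • x) + f (op s • x)
    rw [op_add, add_smul, map_add]
  zero_smul f := by
    apply AddMonoidHom.ext
    intro x
    change f (op (0 : R) • x) = 0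
    simp

attribute [local instance] dualOp dualL

theorem dualOp_apply {R : Type u} [Ring R] {M : Type v} [AddCommGroup M] [Module R M]
    (r : R) (f : M →+ TT) (x : M) : (op r • f) x = f (r • x) := rfl

theorem dualL_apply {R : Type u} [Ring R] {X : Type v} [AddCommGroup X] [Module Rᵐᵒᵖ X]
    (r : R) (f : X →+ TT) (x : X) : (r • f) x = f (op r • x) := rfl

/-- Splitting a character of a finite power. -/
theorem sum_single_char {M : Type v} [AddCommGroup M] {n : ℕ} (χ : (Fin n → M) →+ TT)
    (x : Fin n → M) :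
    ∑ s, (χ.comp (AddMonoidHom.single (fun _ : Fin n => M) s)) (x s) = χ x := by
  rw [show χ x = χ (∑ s, Pi.single s (x s)) by rw [Finset.univ_sum_single]]
  rw [map_sum]
  rfl

/-- A positive primitive formula in `n` free variables: there are `y` with `A x + B y = 0`. -/
structure PP (R : Type u) (n : ℕ) where
  /-- number of equations -/
  m : ℕ
  /-- number of bound variables -/
  k : ℕ
  /-- coefficients of the free variables -/
  A : Fin m → Fin n → R
  /-- coefficients of the bound variables -/
  B : Fin m → Fin k → R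

namespace PP

variable {R : Type u} [Ring R] {n : ℕ}

/-- The subgroup of `M^n` defined by a pp formula. -/
def ev (φ : PP R n) (M : Type v) [AddCommGroup M] [Module R M] : AddSubgroup (Fin n → M) where
  carrier := {x | ∃ y : Fin φ.k → M, ∀ i, ∑ s, φ.A i s • x s + ∑ j, φ.B i j • y j = 0}
  zero_mem' := ⟨0, fun i => by simp⟩
  add_mem' := by
    rintro a b ⟨y, hy⟩ ⟨z, hz⟩
    refine ⟨y + z, fun i => ?_⟩
    have h1 := hy i
    have h2 := hz i
    simp only [Pi.add_apply, smul_add, Finset.sum_add_distrib]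
    rw [add_add_add_comm, h1, h2, add_zero]
  neg_mem' := by
    rintro a ⟨y, hy⟩
    refine ⟨-y, fun i => ?_⟩
    have h1 := hy i
    simp only [Pi.neg_apply, smul_neg, Finset.sum_neg_distrib]
    rw [← neg_add, h1, neg_zero]

theorem mem_ev (φ : PP R n) (M : Type v) [AddCommGroup M] [Module R M] (x : Fin n → M) :
    x ∈ φ.ev M ↔ ∃ y : Fin φ.k → M, ∀ i, ∑ s, φ.A i s • x s + ∑ j, φ.B i j • y j = 0 := Iff.rfl

/-- The dual pp formula evaluated on right modules. -/
def dv (φ : PP R n) (X : Type v) [AddCommGroup X] [Module Rᵐᵒᵖ X] : AddSubgroup (Fin n → X) where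
  carrier := {z | ∃ w : Fin φ.m → X, (∀ s, z s = ∑ i, op (φ.A i s) • w i) ∧
    ∀ j, ∑ i, op (φ.B i j) • w i = 0}
  zero_mem' := ⟨0, fun s => by simp, fun j => by simp⟩
  add_mem' := by
    rintro a b ⟨y, hy, hy'⟩ ⟨z, hz, hz'⟩
    refine ⟨y + z, fun s => ?_, fun j => ?_⟩
    · simp only [Pi.add_apply, smul_add, Finset.sum_add_distrib]
      rw [hy s, hz s]
    · simp only [Pi.add_apply, smul_add, Finset.sum_add_distrib]
      rw [hy' j, hz' j, add_zero]
  neg_mem' := by
    rintro a ⟨y, hy, hy'⟩
    refine ⟨-y, fun s => ?_, fun j => ?_⟩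
    · simp only [Pi.neg_apply, smul_neg, Finset.sum_neg_distrib]
      rw [hy s]
    · simp only [Pi.neg_apply, smul_neg, Finset.sum_neg_distrib]
      rw [hy' j, neg_zero]

theorem mem_dv (φ : PP R n) (X : Type v) [AddCommGroup X] [Module Rᵐᵒᵖ X] (z : Fin n → X) :
    z ∈ φ.dv X ↔ ∃ w : Fin φ.m → X, (∀ s, z s = ∑ i, op (φ.A i s) • w i) ∧
      ∀ j, ∑ i, op (φ.B i j) • w i = 0 := Iff.rfl

/-- `φ(M)^⊥ = (Dφ)(M^+)`. -/
theorem mem_dv_dual (φ : PP R n) (M : Type v) [AddCommGroup M] [Module R M]
    (z : Fin n → (M →+ TT)) :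
    z ∈ φ.dv (M →+ TT) ↔ ∀ x ∈ φ.ev M, ∑ s, z s (x s) = 0 := by
  constructor
  · rintro ⟨w, hw, hw'⟩ x ⟨y, hy⟩
    have h1 : ∀ s, z s (x s) = ∑ i, w i (φ.A i s • x s) := by
      intro s
      rw [hw s, AddMonoidHom.finsetSum_apply]
      rfl
    have h2 : ∀ j, ∑ i, w i (φ.B i j • y j) = 0 := by
      intro j
      have := DFunLike.congr_fun (hw' j) (y j)
      rw [AddMonoidHom.finsetSum_apply] at this
      exact this
    simp_rw [h1]
    rw [Finset.sum_comm]
    have h3 : ∀ i, w i (∑ s, φ.A i s • x s) + w i (∑ j, φ.B i j • y j) = 0 := by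
      intro i
      rw [← map_add, hy i, map_zero]
    have h4 : ∑ i, (w i (∑ s, φ.A i s • x s) + w i (∑ j, φ.B i j • y j)) = 0 :=
      Finset.sum_eq_zero fun i _ => h3 i
    rw [Finset.sum_add_distrib] at h4
    have h5 : ∑ i, w i (∑ j, φ.B i j • y j) = 0 := by
      simp_rw [map_sum]
      rw [Finset.sum_comm]
      exact Finset.sum_eq_zero fun j _ => h2 j
    rw [h5, add_zero] at h4
    simp_rw [map_sum] at h4
    exact h4
  · intro h
    let γ : (Fin n → M) × (Fin φ.k → M) →+ (Fin φ.m → M) :=
      { toFun := fun p i => ∑ s, φ.A i s • p.1 s + ∑ j, φ.B i j • p.2 j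
        map_zero' := by
          funext i
          simp
        map_add' := by
          intro p q
          funext i
          simp only [Prod.fst_add, Prod.snd_add, Pi.add_apply, smul_add, Finset.sum_add_distrib]
          rw [add_add_add_comm] }
    let χ : (Fin n → M) × (Fin φ.k → M) →+ TT :=
      { toFun := fun p => ∑ s, z s (p.1 s)
        map_zero' := by simp
        map_add' := by
          intro p q
          simp [Finset.sum_add_distrib] }
    obtain ⟨ω, hω⟩ := char_ext γ χ (by
      intro p hp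
      exact h p.1 ⟨p.2, fun i => congrFun hp i⟩)
    refine ⟨fun i => ω.comp (AddMonoidHom.single (fun _ : Fin φ.m => M) i), fun s => ?_,
      fun j => ?_⟩
    · apply AddMonoidHom.ext
      intro x
      rw [AddMonoidHom.finsetSum_apply]
      have h1 := hω (Pi.single s x, 0)
      have h2 : γ (Pi.single s x, 0) = fun i => φ.A i s • x := by
        funext i
        change ∑ s', φ.A i s' • (Pi.single s x : Fin n → M) s' + ∑ j, φ.B i j • (0 : M) = _
        rw [Finset.sum_eq_single s]
        · simp
        · intro b _ hb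
          rw [Pi.single_eq_of_ne hb, smul_zero]
        · simp
      have h3 : χ (Pi.single s x, 0) = z s x := by
        change ∑ s', z s' ((Pi.single s x : Fin n → M) s') = _
        rw [Finset.sum_eq_single s]
        · simp
        · intro b _ hb
          rw [Pi.single_eq_of_ne hb, map_zero]
        · simp
      rw [h2, h3] at h1
      rw [← h1, ← sum_single_char ω]
      rfl
    · apply AddMonoidHom.ext
      intro x
      rw [AddMonoidHom.finsetSum_apply]
      have h1 := hω (0, Pi.single j x)
      have h2 : γ (0, Pi.single j x) = fun i => φ.B i j • x := by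
        funext i
        change ∑ s', φ.A i s' • (0 : M) + ∑ j', φ.B i j' • (Pi.single j x : Fin φ.k → M) j' = _
        rw [Finset.sum_eq_single j]
        · simp
        · intro b _ hb
          rw [Pi.single_eq_of_ne hb, smul_zero]
        · simp
      have h3 : χ (0, Pi.single j x) = 0 := by
        change ∑ s', z s' (0 : M) = _
        simp
      rw [h2, h3] at h1
      rw [AddMonoidHom.zero_apply, ← h1, ← sum_single_char ω]
      rfl

/-- `φ(X^+) = (Dφ(X))^⊥`. -/
theorem mem_ev_dual (φ : PP R n) (X : Type v) [AddCommGroup X] [Module Rᵐᵒᵖ X]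
    (f : Fin n → (X →+ TT)) :
    f ∈ φ.ev (X →+ TT) ↔ ∀ z ∈ φ.dv X, ∑ s, f s (z s) = 0 := by
  constructor
  · rintro ⟨g, hg⟩ z ⟨w, hw, hw'⟩
    have h1 : ∀ i, ∑ s, f s (op (φ.A i s) • w i) + ∑ j, g j (op (φ.B i j) • w i) = 0 := by
      intro i
      have := DFunLike.congr_fun (hg i) (w i)
      rw [AddMonoidHom.add_apply, AddMonoidHom.finsetSum_apply,
        AddMonoidHom.finsetSum_apply] at this
      exact this
    have h2 : ∑ i, (∑ s, f s (op (φ.A i s) • w i) + ∑ j, g j (op (φ.B i j) • w i)) = 0 :=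
      Finset.sum_eq_zero fun i _ => h1 i
    rw [Finset.sum_add_distrib, Finset.sum_comm] at h2
    have h3 : ∑ i, ∑ j, g j (op (φ.B i j) • w i) = 0 := by
      rw [Finset.sum_comm]
      refine Finset.sum_eq_zero fun j _ => ?_
      rw [← map_sum, hw' j, map_zero]
    rw [h3, add_zero] at h2
    rw [← h2]
    refine Finset.sum_congr rfl fun s _ => ?_
    rw [hw s, map_sum]
  · intro h
    let β : (Fin φ.m → X) →+ (Fin φ.k → X) :=
      { toFun := fun w j => ∑ i, op (φ.B i j) • w i
        map_zero' := by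
          funext j
          simp
        map_add' := by
          intro p q
          funext j
          simp only [Pi.add_apply, smul_add, Finset.sum_add_distrib] }
    let χ : (Fin φ.m → X) →+ TT :=
      { toFun := fun w => ∑ s, f s (∑ i, op (φ.A i s) • w i)
        map_zero' := by simp
        map_add' := by
          intro p q
          simp only [Pi.add_apply, smul_add, Finset.sum_add_distrib, map_add] }
    obtain ⟨ω, hω⟩ := char_ext β χ (by
      intro w hw
      exact h _ ⟨w, fun s => rfl, fun j => congrFun hw j⟩)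
    refine ⟨fun j => - ω.comp (AddMonoidHom.single (fun _ : Fin φ.k => X) j), fun i => ?_⟩
    apply AddMonoidHom.ext
    intro x
    rw [AddMonoidHom.add_apply, AddMonoidHom.finsetSum_apply, AddMonoidHom.finsetSum_apply]
    have h1 := hω (Pi.single i x)
    have h2 : β (Pi.single i x) = fun j => op (φ.B i j) • x := by
      funext j
      change ∑ i', op (φ.B i' j) • (Pi.single i x : Fin φ.m → X) i' = _
      rw [Finset.sum_eq_single i]
      · simp
      · intro b _ hb
        rw [Pi.single_eq_of_ne hb, smul_zero]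
      · simp
    have h3 : χ (Pi.single i x) = ∑ s, f s (op (φ.A i s) • x) := by
      change ∑ s, f s (∑ i', op (φ.A i' s) • (Pi.single i x : Fin φ.m → X) i') = _
      refine Finset.sum_congr rfl fun s _ => ?_
      rw [Finset.sum_eq_single i]
      · simp
      · intro b _ hb
        rw [Pi.single_eq_of_ne hb, smul_zero]
      · simp
    rw [h2, h3, ← sum_single_char ω] at h1
    change ∑ s, f s (op (φ.A i s) • x) + ∑ j, (-(ω.comp (AddMonoidHom.single (fun _ : Fin φ.k => X) j))
      (op (φ.B i j) • x)) = 0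
    rw [← h1, Finset.sum_neg_distrib, add_neg_cancel]

/-- Closed pairs dualise. -/
theorem dv_le_of_ev_le (φ ψ : PP R n) (M : Type v) [AddCommGroup M] [Module R M]
    (h : φ.ev M ≤ ψ.ev M) : ψ.dv (M →+ TT) ≤ φ.dv (M →+ TT) := by
  intro z hz
  rw [mem_dv_dual] at hz ⊢
  exact fun x hx => hz x (h hx)

/-- Closed pairs dualise. -/
theorem ev_le_of_dv_le (φ ψ : PP R n) (X : Type v) [AddCommGroup X] [Module Rᵐᵒᵖ X]
    (h : ψ.dv X ≤ φ.dv X) : φ.ev (X →+ TT) ≤ ψ.ev (X →+ TT) := by
  intro f hf
  rw [mem_ev_dual] at hf ⊢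
  exact fun x hx => hf x (h hx)

/-- Open pairs dualise. -/
theorem exists_dv_of_not_ev_le (φ ψ : PP R n) (M : Type v) [AddCommGroup M] [Module R M]
    (h : ¬ φ.ev M ≤ ψ.ev M) : ∃ z ∈ ψ.dv (M →+ TT), z ∉ φ.dv (M →+ TT) := by
  obtain ⟨x, hx, hx'⟩ := SetLike.not_le_iff_exists.mp h
  obtain ⟨χ, hχ, hχ'⟩ := char_sep_subgroup (ψ.ev M) hx'
  refine ⟨fun s => χ.comp (AddMonoidHom.single (fun _ : Fin n => M) s), ?_, ?_⟩
  · rw [mem_dv_dual]
    intro y hy
    rw [sum_single_char]
    exact hχ y hy
  · rw [mem_dv_dual]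
    intro hc
    have := hc x hx
    rw [sum_single_char] at this
    exact hχ' this

/-- Functoriality of pp formulas. -/
theorem ev_map (φ : PP R n) {M : Type v} [AddCommGroup M] [Module R M] {N : Type w}
    [AddCommGroup N] [Module R N] (h : M →ₗ[R] N) {x : Fin n → M} (hx : x ∈ φ.ev M) :
    (fun s => h (x s)) ∈ φ.ev N := by
  obtain ⟨y, hy⟩ := hx
  refine ⟨fun j => h (y j), fun i => ?_⟩
  have := congrArg h (hy i)
  simpa [map_add, map_sum] using this

/-- Evaluation on products. -/
theorem mem_ev_pi (φ : PP R n) {I : Type w} (M : I → Type v) [∀ i, AddCommGroup (M i)]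
    [∀ i, Module R (M i)] (x : Fin n → ∀ i, M i) :
    x ∈ φ.ev (∀ i, M i) ↔ ∀ i, (fun s => x s i) ∈ φ.ev (M i) := by
  constructor
  · intro hx i
    exact φ.ev_map (LinearMap.proj i : (∀ i, M i) →ₗ[R] M i) hx
  · intro hx
    choose y hy using hx
    refine ⟨fun j i => y i j, fun e => ?_⟩
    funext i
    have := hy i e
    simpa [Finset.sum_apply] using this

/-- Dual evaluation on products. -/
theorem mem_dv_pi (φ : PP R n) {I : Type w} (X : I → Type v) [∀ i, AddCommGroup (X i)]
    [∀ i, Module Rᵐᵒᵖ (X i)] (x : Fin n → ∀ i, X i) :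
    x ∈ φ.dv (∀ i, X i) ↔ ∀ i, (fun s => x s i) ∈ φ.dv (X i) := by
  constructor
  · rintro ⟨w, hw, hw'⟩ i
    refine ⟨fun e => w e i, fun s => ?_, fun j => ?_⟩
    · have := congrFun (hw s) i
      simpa [Finset.sum_apply] using this
    · have := congrFun (hw' j) i
      simpa [Finset.sum_apply] using this
  · intro hx
    choose w hw hw' using hx
    refine ⟨fun e i => w i e, fun s => ?_, fun j => ?_⟩
    · funext i
      have := hw i s
      simpa [Finset.sum_apply] using this
    · funext i
      have := hw' i j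
      simpa [Finset.sum_apply] using this

/-- A pp formula from data indexed by arbitrary finite types. -/
noncomputable def ofFin {ι : Type v} {κ : Type w} [Fintype ι] [Fintype κ] (A : ι → Fin n → R)
    (B : ι → κ → R) : PP R n where
  m := Fintype.card ι
  k := Fintype.card κ
  A := fun i => A ((Fintype.equivFin ι).symm i)
  B := fun i j => B ((Fintype.equivFin ι).symm i) ((Fintype.equivFin κ).symm j)

theorem mem_ofFin {ι : Type*} {κ : Type*} [Fintype ι] [Fintype κ] (A : ι → Fin n → R)
    (B : ι → κ → R) (M : Type*) [AddCommGroup M] [Module R M] (x : Fin n → M) :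
    x ∈ (ofFin A B).ev M ↔ ∃ y : κ → M, ∀ i, ∑ s, A i s • x s + ∑ j, B i j • y j = 0 := by
  constructor
  · rintro ⟨y, hy⟩
    refine ⟨fun j => y (Fintype.equivFin κ j), fun i => ?_⟩
    have := hy (Fintype.equivFin ι i)
    simp only [ofFin, Equiv.symm_apply_apply] at this
    rw [← this]
    congr 1
    refine Fintype.sum_equiv (Fintype.equivFin κ) _ _ fun j => ?_
    simp
  · rintro ⟨y, hy⟩
    refine ⟨fun j => y ((Fintype.equivFin κ).symm j), fun i => ?_⟩
    have := hy ((Fintype.equivFin ι).symm i)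
    simp only [ofFin]
    rw [← this]
    congr 1
    symm
    refine Fintype.sum_equiv (Fintype.equivFin κ) _ _ fun j => ?_
    simp

theorem mem_dv_ofFin {ι : Type*} {κ : Type*} [Fintype ι] [Fintype κ] (A : ι → Fin n → R)
    (B : ι → κ → R) (X : Type*) [AddCommGroup X] [Module Rᵐᵒᵖ X] (z : Fin n → X) :
    z ∈ (ofFin A B).dv X ↔ ∃ w : ι → X, (∀ s, z s = ∑ i, op (A i s) • w i) ∧
      ∀ j, ∑ i, op (B i j) • w i = 0 := by
  constructor
  · rintro ⟨w, hw, hw'⟩
    refine ⟨fun i => w (Fintype.equivFin ι i), fun s => ?_, fun j => ?_⟩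
    · rw [hw s]
      symm
      refine Fintype.sum_equiv (Fintype.equivFin ι) _ _ fun i => ?_
      simp [ofFin]
    · rw [← hw' (Fintype.equivFin κ j)]
      refine Fintype.sum_equiv (Fintype.equivFin ι) _ _ fun i => ?_
      simp [ofFin]
  · rintro ⟨w, hw, hw'⟩
    refine ⟨fun i => w ((Fintype.equivFin ι).symm i), fun s => ?_, fun j => ?_⟩
    · rw [hw s]
      refine Fintype.sum_equiv (Fintype.equivFin ι) _ _ fun i => ?_
      simp [ofFin]
    · rw [← hw' ((Fintype.equivFin κ).symm j)]
      symm
      refine Fintype.sum_equiv (Fintype.equivFin ι) _ _ fun i => ?_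
      simp [ofFin]

/-- Conjunction. -/
noncomputable def inf (φ ψ : PP R n) : PP R n :=
  ofFin (ι := Fin φ.m ⊕ Fin ψ.m) (κ := Fin φ.k ⊕ Fin ψ.k) (Sum.elim φ.A ψ.A)
    (Sum.elim (fun i => Sum.elim (φ.B i) (fun _ => 0)) (fun i => Sum.elim (fun _ => 0) (ψ.B i)))

theorem mem_inf (φ ψ : PP R n) (M : Type v) [AddCommGroup M] [Module R M] (x : Fin n → M) :
    x ∈ (inf φ ψ).ev M ↔ x ∈ φ.ev M ∧ x ∈ ψ.ev M := by
  unfold inf
  rw [mem_ofFin]
  constructor
  · rintro ⟨y, hy⟩
    refine ⟨⟨fun j => y (Sum.inl j), fun i => ?_⟩, ⟨fun j => y (Sum.inr j), fun i => ?_⟩⟩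
    · have := hy (Sum.inl i)
      simpa [Fintype.sum_sum_type] using this
    · have := hy (Sum.inr i)
      simpa [Fintype.sum_sum_type] using this
  · rintro ⟨⟨y, hy⟩, ⟨z, hz⟩⟩
    refine ⟨Sum.elim y z, ?_⟩
    rintro (i | i)
    · simpa [Fintype.sum_sum_type] using hy i
    · simpa [Fintype.sum_sum_type] using hz i

theorem dv_le_inf_left (φ ψ : PP R n) (X : Type v) [AddCommGroup X] [Module Rᵐᵒᵖ X] :
    φ.dv X ≤ (inf φ ψ).dv X := by
  intro z hz
  unfold inf
  rw [mem_dv_ofFin]
  obtain ⟨w, hw, hw'⟩ := hz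
  refine ⟨Sum.elim w 0, fun s => ?_, ?_⟩
  · rw [hw s]
    simp [Fintype.sum_sum_type]
  · rintro (j | j)
    · simpa [Fintype.sum_sum_type] using hw' j
    · simp [Fintype.sum_sum_type]

theorem dv_le_inf_right (φ ψ : PP R n) (X : Type v) [AddCommGroup X] [Module Rᵐᵒᵖ X] :
    ψ.dv X ≤ (inf φ ψ).dv X := by
  intro z hz
  unfold inf
  rw [mem_dv_ofFin]
  obtain ⟨w, hw, hw'⟩ := hz
  refine ⟨Sum.elim 0 w, fun s => ?_, ?_⟩
  · rw [hw s]
    simp [Fintype.sum_sum_type]
  · rintro (j | j)
    · simp [Fintype.sum_sum_type]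
    · simpa [Fintype.sum_sum_type] using hw' j

end PP

end Pool.Agent.Work.MP_95e4ab_al
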