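import Pool.Agent.Work.MP_95e4ab_al.Ziegler

set_option autoImplicit false

namespace Pool.Agent.Work.MP_95e4ab_al

universe u v w

/-- `r` lies in the right ideal generated by the `x i` with `i < l`. -/
def inX {R : Type u} [Ring R] {L : ℕ} (x : Fin L → R) (l : ℕ) (r : R) : Prop :=
  ∃ c : Fin L → R, (∀ i : Fin L, l ≤ i.val → c i = 0) ∧ r = ∑ i, x i * c i

/-- The subgroup `X_l M`. -/
def XM {R : Type u} [Ring R] {L : ℕ} (x : Fin L → R) (l : ℕ) (M : Type v) [AddCommGroup M]
    [Module R M] : AddSubgroup M where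
  carrier := {m | ∃ f : Fin L → M, (∀ i : Fin L, l ≤ i.val → f i = 0) ∧ m = ∑ i, x i • f i}
  zero_mem' := ⟨0, fun _ _ => rfl, by simp⟩
  add_mem' := by
    rintro a b ⟨f, hf, rfl⟩ ⟨g, hg, rfl⟩
    refine ⟨f + g, fun i hi => by simp [hf i hi, hg i hi], ?_⟩
    simp [Finset.sum_add_distrib]
  neg_mem' := by
    rintro a ⟨f, hf, rfl⟩
    refine ⟨-f, fun i hi => by simp [hf i hi], ?_⟩
    simp [Finset.sum_neg_distrib]

/-- The data extracted from an artinian ring. -/
structure RData (R : Type u) [Ring R] where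
  /-- number of generators of the radical -/
  L : ℕ
  /-- the generators -/
  x : Fin L → R
  /-- the idempotents -/
  e : Fin L → R
  left : ∀ r s, inX x L s → inX x L (r * s)
  h1 : ∀ (l : Fin L) (r : R), inX x L r → inX x l (x l * r)
  h2 : ∀ l : Fin L, inX x l (x l - x l * e l)
  h3 : ∀ (l : Fin L) (r : R), inX x l (x l * r) → inX x L (e l * r)
  crit : ∀ (F M : Type u) [AddCommGroup F] [AddCommGroup M] [Module R F] [Module R M]
    [Module.Projective R F] (π : F →ₗ[R] M), Function.Surjective π →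
    (∀ κ : LinearMap.ker π, (κ : F) ∈ XM x L F → κ ∈ XM x L (LinearMap.ker π)) →
    Module.Projective R M
  ker : ∀ (m q : ℕ) (C : Fin m → Fin q → R), ∃ (s : ℕ) (G : Fin q → Fin s → R),
    (∀ i t, ∑ j, C i j * G j t = 0) ∧
      ∀ v : Fin q → R, (∀ i, ∑ j, C i j * v j = 0) → ∃ u : Fin s → R, ∀ j, v j = ∑ t, G j t * u t

section

variable {R : Type u} [Ring R] (D : RData R)

theorem XM_mono {L : ℕ} (x : Fin L → R) {l l' : ℕ} (h : l ≤ l') (M : Type v) [AddCommGroup M]
    [Module R M] : XM x l M ≤ XM x l' M := by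
  rintro m ⟨f, hf, rfl⟩
  exact ⟨f, fun i hi => hf i (h.trans hi), rfl⟩

theorem inX_smul {L : ℕ} {x : Fin L → R} {l : ℕ} {r : R} (h : inX x l r) {M : Type v}
    [AddCommGroup M] [Module R M] (m : M) : r • m ∈ XM x l M := by
  obtain ⟨c, hc, rfl⟩ := h
  refine ⟨fun i => c i • m, fun i hi => by simp [hc i hi], ?_⟩
  rw [Finset.sum_smul]
  simp [mul_smul]

theorem inX_gen {L : ℕ} (x : Fin L → R) (l : ℕ) (i : Fin L) (hi : i.val < l) : inX x l (x i) := by
  classical
  refine ⟨Pi.single i 1, fun j hj => ?_, ?_⟩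
  · rw [Pi.single_eq_of_ne]
    rintro rfl
    omega
  · rw [Finset.sum_eq_single i]
    · simp
    · intro b _ hb
      rw [Pi.single_eq_of_ne hb, mul_zero]
    · simp

theorem XM_map {L : ℕ} (x : Fin L → R) (l : ℕ) {M : Type v} {N : Type w} [AddCommGroup M]
    [Module R M] [AddCommGroup N] [Module R N] (g : M →ₗ[R] N) {m : M} (hm : m ∈ XM x l M) :
    g m ∈ XM x l N := by
  obtain ⟨f, hf, rfl⟩ := hm
  exact ⟨fun i => g (f i), fun i hi => by simp [hf i hi], by simp [map_sum]⟩

theorem XM_lift {L : ℕ} (x : Fin L → R) (l : ℕ) {M : Type v} {N : Type w} [AddCommGroup M]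
    [Module R M] [AddCommGroup N] [Module R N] (g : M →ₗ[R] N) (hg : Function.Surjective g)
    {m : N} (hm : m ∈ XM x l N) : ∃ m' ∈ XM x l M, g m' = m := by
  classical
  obtain ⟨f, hf, rfl⟩ := hm
  choose s hs using hg
  refine ⟨∑ i, x i • (if l ≤ i.val then 0 else s (f i)), ⟨_, fun i hi => if_pos hi, rfl⟩, ?_⟩
  rw [map_sum]
  refine Finset.sum_congr rfl fun i _ => ?_
  rw [map_smul]
  by_cases hi : l ≤ i.val
  · rw [if_pos hi, map_zero, hf i hi]
  · rw [if_neg hi, hs]

theorem x_smul_mem (l : Fin D.L) {M : Type v} [AddCommGroup M] [Module R M] {m : M}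
    (hm : m ∈ XM D.x D.L M) : D.x l • m ∈ XM D.x l M := by
  obtain ⟨f, hf, rfl⟩ := hm
  rw [Finset.smul_sum]
  refine AddSubgroup.sum_mem _ fun i _ => ?_
  rw [← mul_smul]
  exact inX_smul (D.h1 l _ (inX_gen _ _ i i.2)) _

theorem smul_XM_mem (r : R) {M : Type v} [AddCommGroup M] [Module R M] {m : M}
    (hm : m ∈ XM D.x D.L M) : r • m ∈ XM D.x D.L M := by
  obtain ⟨f, hf, rfl⟩ := hm
  rw [Finset.smul_sum]
  refine AddSubgroup.sum_mem _ fun i _ => ?_
  rw [← mul_smul]
  exact inX_smul (D.left r _ (inX_gen _ _ i i.2)) _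

/-- One-variable evaluation. -/
def PP.ev1 (θ : PP R 1) (M : Type v) [AddCommGroup M] [Module R M] (a : M) : Prop :=
  (fun _ => a) ∈ θ.ev M

theorem PP.ev1_map (θ : PP R 1) {M : Type v} {N : Type w} [AddCommGroup M] [Module R M]
    [AddCommGroup N] [Module R N] (g : M →ₗ[R] N) {a : M} (h : θ.ev1 M a) : θ.ev1 N (g a) :=
  θ.ev_map g h

theorem PP.ev1_iff (θ : PP R 1) (M : Type v) [AddCommGroup M] [Module R M] (a : M) :
    θ.ev1 M a ↔ ∃ y : Fin θ.k → M, ∀ i, θ.A i 0 • a + ∑ j, θ.B i j • y j = 0 := by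
  unfold PP.ev1
  rw [PP.mem_ev]
  simp

/-- The coefficients `x i` for `i ≤ l` and `0` afterwards. -/
def RData.c (D : RData R) (l i : Fin D.L) : R := if i ≤ l then D.x i else 0

/-- The relation transporting a pp formula on the syzygy to a pp formula on the module. -/
def PhiSet (l : Fin D.L) (θ : PP R 1) {P : Type v} {M : Type w} [AddCommGroup P] [Module R P]
    [AddCommGroup M] [Module R M] (π : P →ₗ[R] M) (a : M) : Prop :=
  ∃ (f : Fin D.L → P) (κ : LinearMap.ker π), θ.ev1 (LinearMap.ker π) κ ∧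
    (κ : P) = ∑ i, D.c l i • f i ∧ a - D.e l • π (f l) ∈ XM D.x D.L M

/-- Independence of the projective presentation. -/
theorem PhiSet_indep (l : Fin D.L) (θ : PP R 1) {P P' : Type*} {M : Type*} [AddCommGroup P]
    [Module R P] [AddCommGroup P'] [Module R P'] [AddCommGroup M] [Module R M]
    [Module.Projective R P] (π : P →ₗ[R] M) (π' : P' →ₗ[R] M) (hπ' : Function.Surjective π')
    {a : M} (h : PhiSet D l θ π a) : PhiSet D l θ π' a := by
  obtain ⟨g, hg⟩ := Module.projective_lifting_property π' π hπ'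
  have hg' : ∀ p, π' (g p) = π p := fun p => LinearMap.congr_fun hg p
  obtain ⟨f, κ, hκ, hκf, ha⟩ := h
  let gK : LinearMap.ker π →ₗ[R] LinearMap.ker π' :=
    (g ∘ₗ (LinearMap.ker π).subtype).codRestrict _ (fun p => by
      rw [LinearMap.mem_ker, LinearMap.comp_apply, hg']
      exact p.2)
  refine ⟨fun i => g (f i), gK κ, θ.ev1_map gK hκ, ?_, ?_⟩
  · change g (κ : P) = _
    rw [hκf, map_sum]
    simp
  · rw [hg']
    exact ha

/-- The canonical free presentation. -/
noncomputable abbrev canon (R : Type u) [Ring R] (M : Type v) [AddCommGroup M] [Module R M] :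
    (M →₀ R) →ₗ[R] M := Finsupp.linearCombination R (id : M → M)

theorem canon_surj (M : Type v) [AddCommGroup M] [Module R M] :
    Function.Surjective (canon R M) := fun m => ⟨Finsupp.single m 1, by simp [canon]⟩

/-- The transported formula is again positive primitive. -/
theorem exists_Phi (l : Fin D.L) (θ : PP R 1) : ∃ θ' : PP R 1,
    ∀ (M : Type u) [AddCommGroup M] [Module R M] (a : M),
      θ'.ev1 M a ↔ PhiSet D l θ (canon R M) a := by
  classical
  let q := D.L + θ.k
  let C : Fin θ.m → Fin q → R := fun i =>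
    Fin.append (fun j => θ.A i 0 * D.c l j) (θ.B i)
  obtain ⟨s, G, hG, hG'⟩ := D.ker _ _ C
  let G1 : Fin D.L → Fin s → R := fun i => G (Fin.castAdd θ.k i)
  let G2 : Fin θ.k → Fin s → R := fun j => G (Fin.natAdd D.L j)
  have hGs : ∀ i t, θ.A i 0 * ∑ j, D.c l j * G1 j t + ∑ j, θ.B i j * G2 j t = 0 := by
    intro i t
    have := hG i t
    rw [Fin.sum_univ_add] at this
    simp only [C, Fin.append_left, Fin.append_right] at this
    rw [Finset.mul_sum]
    simpa [mul_assoc] using this
  have hGk : ∀ (v1 : Fin D.L → R) (v2 : Fin θ.k → R),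
      (∀ i, θ.A i 0 * ∑ j, D.c l j * v1 j + ∑ j, θ.B i j * v2 j = 0) →
      ∃ u : Fin s → R, (∀ j, v1 j = ∑ t, G1 j t * u t) ∧ ∀ j, v2 j = ∑ t, G2 j t * u t := by
    intro v1 v2 h
    obtain ⟨u, hu⟩ := hG' (Fin.append v1 v2) (by
      intro i
      rw [Fin.sum_univ_add]
      simp only [C, Fin.append_left, Fin.append_right]
      have := h i
      rw [Finset.mul_sum] at this
      simpa [mul_assoc] using this)
    refine ⟨u, fun j => ?_, fun j => ?_⟩
    · have := hu (Fin.castAdd θ.k j)
      rwa [Fin.append_left] at this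
    · have := hu (Fin.natAdd D.L j)
      rwa [Fin.append_right] at this
  let θ' : PP R 1 := PP.ofFin (ι := Unit ⊕ (Fin θ.k ⊕ Unit)) (κ := Fin s ⊕ Fin D.L)
    (Sum.elim (fun _ _ => 0) (Sum.elim (fun _ _ => 0) (fun _ _ => 1)))
    (Sum.elim (fun _ => Sum.elim (fun t => ∑ i, D.c l i * G1 i t) (fun _ => 0))
      (Sum.elim (fun j => Sum.elim (fun t => G2 j t) (fun _ => 0))
        (fun _ => Sum.elim (fun t => - (D.e l * G1 l t)) (fun i => - D.x i))))
  have hθ' : ∀ (M : Type u) [AddCommGroup M] [Module R M] (a : M), θ'.ev1 M a ↔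
      ∃ (y : Fin s → M), (∑ t, (∑ i, D.c l i * G1 i t) • y t = 0) ∧
        (∀ j, ∑ t, G2 j t • y t = 0) ∧ a - ∑ t, (D.e l * G1 l t) • y t ∈ XM D.x D.L M := by
    intro M _ _ a
    unfold PP.ev1
    rw [PP.mem_ofFin]
    constructor
    · rintro ⟨y, hy⟩
      refine ⟨fun t => y (Sum.inl t), ?_, fun j => ?_, fun i => y (Sum.inr i), ?_, ?_⟩
      · have := hy (Sum.inl ())
        simpa [Fintype.sum_sum_type] using this
      · have := hy (Sum.inr (Sum.inl j))
        simpa [Fintype.sum_sum_type] using this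
      · intro i hi
        exact absurd i.2 (by omega)
      · have := hy (Sum.inr (Sum.inr ()))
        simp only [Sum.elim_inr, Finset.univ_unique, one_smul, Finset.sum_const,
          Finset.card_singleton, Fintype.sum_sum_type, Sum.elim_inl, neg_smul,
          Finset.sum_neg_distrib] at this
        rw [← add_assoc, add_neg_eq_zero, ← sub_eq_add_neg] at this
        exact this
    · rintro ⟨y, h1, h2, z, hz, h3⟩
      refine ⟨Sum.elim y z, ?_⟩
      rintro (_ | (j | _))
      · simpa [Fintype.sum_sum_type] using h1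
      · simpa [Fintype.sum_sum_type] using h2 j
      · simp only [Sum.elim_inr, Finset.univ_unique, one_smul, Finset.sum_const,
          Finset.card_singleton, Fintype.sum_sum_type, Sum.elim_inl, neg_smul,
          Finset.sum_neg_distrib]
        rw [← add_assoc, add_neg_eq_zero, ← sub_eq_add_neg]
        exact h3
  refine ⟨θ', fun M _ _ a => ?_⟩
  rw [hθ']
  constructor
  · rintro ⟨y, hy1, hy2, hy3⟩
    let Y : Fin s → (M →₀ R) := fun t => Finsupp.single (y t) 1
    have hY : ∀ t, canon R M (Y t) = y t := fun t => by simp [Y, canon]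
    have hz : ∀ j, ∑ t, G2 j t • Y t ∈ LinearMap.ker (canon R M) := by
      intro j
      rw [LinearMap.mem_ker, map_sum]
      simp only [map_smul, hY]
      exact hy2 j
    have hκ : ∑ i, D.c l i • (∑ t, G1 i t • Y t) =
        ∑ t, (∑ i, D.c l i * G1 i t) • Y t := by
      simp_rw [Finset.smul_sum, Finset.sum_smul, mul_smul]
      rw [Finset.sum_comm]
    refine ⟨fun i => ∑ t, G1 i t • Y t, ⟨∑ i, D.c l i • (∑ t, G1 i t • Y t), ?_⟩, ?_, rfl, ?_⟩
    · rw [hκ, LinearMap.mem_ker, map_sum]
      simp only [map_smul, hY]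
      exact hy1
    · rw [PP.ev1_iff]
      refine ⟨fun j => ⟨_, hz j⟩, fun i => ?_⟩
      apply Subtype.ext
      rw [Submodule.coe_add, Submodule.coe_smul, Submodule.coe_sum, Submodule.coe_zero]
      simp only [Submodule.coe_smul]
      rw [hκ, Finset.smul_sum]
      simp_rw [Finset.smul_sum]
      rw [Finset.sum_comm, ← Finset.sum_add_distrib]
      refine Finset.sum_eq_zero fun t _ => ?_
      simp_rw [← mul_smul]
      rw [← Finset.sum_smul, ← add_smul, hGs, zero_smul]
    · rw [map_sum, Finset.smul_sum]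
      simp only [map_smul, hY, ← mul_smul]
      exact hy3
  · rintro ⟨f, κ, hκ, hκf, ha⟩
    rw [PP.ev1_iff] at hκ
    obtain ⟨z, hz⟩ := hκ
    have h0 : ∀ (b : M) (i : Fin θ.m), θ.A i 0 * ∑ j, D.c l j * f j b +
        ∑ j, θ.B i j * (z j : M →₀ R) b = 0 := by
      intro b i
      have h1 := congrArg Subtype.val (hz i)
      rw [Submodule.coe_add, Submodule.coe_smul, Submodule.coe_sum, Submodule.coe_zero, hκf] at h1
      have h2 := DFunLike.congr_fun h1 b
      simpa [Finsupp.finsetSum_apply] using h2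
    choose u hu1 hu2 using fun b => hGk (fun j => f j b) (fun j => (z j : M →₀ R) b) (h0 b)
    let S : Finset M := Finset.univ.biUnion (fun j => (f j).support) ∪
      Finset.univ.biUnion (fun j => (z j : M →₀ R).support)
    let U : Fin s → (M →₀ R) := fun t => Finsupp.onFinset S
      (fun b => if b ∈ S then u b t else 0) (by
        intro b hb
        by_contra hc
        exact hb (if_neg hc))
    have hU : ∀ t b, U t b = if b ∈ S then u b t else 0 := fun t b => rfl
    have hf : ∀ j, f j = ∑ t, G1 j t • U t := by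
      intro j
      ext b
      rw [Finsupp.finsetSum_apply]
      simp only [Finsupp.smul_apply, hU, smul_eq_mul]
      by_cases hb : b ∈ S
      · simp only [if_pos hb]
        exact hu1 b j
      · simp only [if_neg hb, mul_zero, Finset.sum_const_zero]
        by_contra hne
        apply hb
        simp only [S, Finset.mem_union, Finset.mem_biUnion, Finset.mem_univ, true_and]
        exact Or.inl ⟨j, Finsupp.mem_support_iff.mpr hne⟩
    have hzz : ∀ j, (z j : M →₀ R) = ∑ t, G2 j t • U t := by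
      intro j
      ext b
      rw [Finsupp.finsetSum_apply]
      simp only [Finsupp.smul_apply, hU, smul_eq_mul]
      by_cases hb : b ∈ S
      · simp only [if_pos hb]
        exact hu2 b j
      · simp only [if_neg hb, mul_zero, Finset.sum_const_zero]
        by_contra hne
        apply hb
        simp only [S, Finset.mem_union, Finset.mem_biUnion, Finset.mem_univ, true_and]
        exact Or.inr ⟨j, Finsupp.mem_support_iff.mpr hne⟩
    refine ⟨fun t => canon R M (U t), ?_, fun j => ?_, ?_⟩
    · have h1 : canon R M (κ : M →₀ R) = 0 := κ.2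
      rw [hκf] at h1
      simp_rw [hf, Finset.smul_sum] at h1
      rw [Finset.sum_comm, map_sum] at h1
      rw [← h1]
      refine Finset.sum_congr rfl fun t _ => ?_
      rw [Finset.sum_smul, map_sum]
      simp [mul_smul]
    · have h1 : canon R M (z j : M →₀ R) = 0 := (z j).2
      rw [hzz, map_sum] at h1
      rw [← h1]
      simp
    · have h1 : ∑ t, (D.e l * G1 l t) • canon R M (U t) = D.e l • canon R M (f l) := by
        rw [hf l, map_sum, Finset.smul_sum]
        simp [mul_smul]
      rw [h1]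
      exact ha

end

end Pool.Agent.Work.MP_95e4ab_al
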