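import Pool.Agent.Work.MP_95e4ab_al.Tree

set_option autoImplicit false

namespace Pool.Agent.Work.MP_95e4ab_al

universe u v w

section

variable {R : Type u} [Ring R] (D : RData R)

/-- The transported formula. -/
noncomputable def Phi (l : Fin D.L) (θ : PP R 1) : PP R 1 := (exists_Phi D l θ).choose

theorem Phi_iff (l : Fin D.L) (θ : PP R 1) (M : Type u) [AddCommGroup M] [Module R M] (a : M) :
    (Phi D l θ).ev1 M a ↔ PhiSet D l θ (canon R M) a := (exists_Phi D l θ).choose_spec M a

/-- `Phi` is computed by any projective presentation. -/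
theorem Phi_iff' (l : Fin D.L) (θ : PP R 1) {P M : Type u} [AddCommGroup P] [Module R P]
    [Module.Projective R P] [AddCommGroup M] [Module R M] (π : P →ₗ[R] M)
    (hπ : Function.Surjective π) (a : M) : (Phi D l θ).ev1 M a ↔ PhiSet D l θ π a := by
  rw [Phi_iff]
  exact ⟨fun h => PhiSet_indep D l θ _ π hπ h, fun h => PhiSet_indep D l θ π _ (canon_surj M) h⟩

/-- Comparison of one-variable formulas on a module. -/
def LE1 (α β : PP R 1) (M : Type v) [AddCommGroup M] [Module R M] : Prop :=
  ∀ a : M, α.ev1 M a → β.ev1 M a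

theorem LE1_iff (α β : PP R 1) (M : Type v) [AddCommGroup M] [Module R M] :
    LE1 α β M ↔ α.ev M ≤ β.ev M := by
  constructor
  · intro h x hx
    have hx' : x = fun _ => x 0 := by
      funext i
      rw [Subsingleton.elim i 0]
    have h1 : α.ev1 M (x 0) := by
      unfold PP.ev1
      rw [← hx']
      exact hx
    have h2 := h _ h1
    unfold PP.ev1 at h2
    rwa [← hx'] at h2
  · intro h a ha
    exact h ha

theorem ev1_add (α : PP R 1) (M : Type v) [AddCommGroup M] [Module R M] {a b : M}
    (ha : α.ev1 M a) (hb : α.ev1 M b) : α.ev1 M (a + b) := add_mem (S := AddSubgroup (Fin 1 → M)) ha hb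

theorem ev1_neg (α : PP R 1) (M : Type v) [AddCommGroup M] [Module R M] {a : M}
    (ha : α.ev1 M a) : α.ev1 M (-a) := neg_mem (S := AddSubgroup (Fin 1 → M)) ha

theorem ev1_zero (α : PP R 1) (M : Type v) [AddCommGroup M] [Module R M] :
    α.ev1 M 0 := zero_mem (S := AddSubgroup (Fin 1 → M)) _

/-- The formula `x = x`. -/
def topPP : PP R 1 := ⟨0, 0, fun _ _ => 0, fun _ _ => 0⟩

theorem topPP_ev1 (M : Type v) [AddCommGroup M] [Module R M] (a : M) : (topPP (R := R)).ev1 M a := by
  rw [PP.ev1_iff]
  exact ⟨0, fun i => i.elim0⟩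

/-- The formula `a ∈ JM`. -/
def JPP : PP R 1 := ⟨1, D.L, fun _ _ => 1, fun _ j => - D.x j⟩

theorem JPP_ev1 (M : Type v) [AddCommGroup M] [Module R M] (a : M) :
    (JPP D).ev1 M a ↔ a ∈ XM D.x D.L M := by
  rw [PP.ev1_iff]
  constructor
  · rintro ⟨y, hy⟩
    refine ⟨y, fun i hi => absurd i.2 (by omega), ?_⟩
    have := hy (⟨0, Nat.zero_lt_one⟩ : Fin 1)
    simp only [JPP, one_smul, neg_smul, Finset.sum_neg_distrib] at this
    rwa [add_neg_eq_zero] at this
  · rintro ⟨y, _, hy⟩
    refine ⟨y, fun i => ?_⟩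
    simp only [JPP, one_smul, neg_smul, Finset.sum_neg_distrib]
    rw [add_neg_eq_zero]
    exact hy

theorem Phi_mono (l : Fin D.L) {θ θ' : PP R 1}
    (h : ∀ (M : Type u) [AddCommGroup M] [Module R M], LE1 θ θ' M)
    (M : Type u) [AddCommGroup M] [Module R M] : LE1 (Phi D l θ) (Phi D l θ') M := by
  intro a ha
  rw [Phi_iff] at ha ⊢
  obtain ⟨f, κ, hκ, h1, h2⟩ := ha
  exact ⟨f, κ, h _ _ hκ, h1, h2⟩

theorem JPP_le_Phi (l : Fin D.L) (θ : PP R 1) (M : Type u) [AddCommGroup M] [Module R M] :
    LE1 (JPP D) (Phi D l θ) M := by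
  intro a ha
  rw [JPP_ev1] at ha
  rw [Phi_iff]
  refine ⟨0, 0, ev1_zero _ _, by simp, ?_⟩
  simpa using ha

/-- The upper formulas of the tree. -/
noncomputable def phi : List (Fin D.L) → PP R 1
  | [] => topPP
  | l :: w => Phi D l (phi w)

/-- The lower formulas of the tree. -/
noncomputable def psi : List (Fin D.L) → PP R 1
  | [] => JPP D
  | l :: w => Phi D l (psi w)

theorem phi_cons (l : Fin D.L) (w : List (Fin D.L)) : phi D (l :: w) = Phi D l (phi D w) := rfl

theorem psi_cons (l : Fin D.L) (w : List (Fin D.L)) : psi D (l :: w) = Phi D l (psi D w) := rfl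

theorem phi_append (w w' : List (Fin D.L)) (M : Type u) [AddCommGroup M] [Module R M] :
    LE1 (phi D (w ++ w')) (phi D w) M := by
  induction w generalizing M with
  | nil => exact fun a _ => topPP_ev1 M a
  | cons l w ih => exact Phi_mono D l (fun M _ _ => ih M) M

theorem JPP_le_psi (w : List (Fin D.L)) (M : Type u) [AddCommGroup M] [Module R M] :
    LE1 (JPP D) (psi D w) M := by
  cases w with
  | nil => exact fun a h => h
  | cons l w => exact JPP_le_Phi D l _ M

theorem psi_append (w w' : List (Fin D.L)) (M : Type u) [AddCommGroup M] [Module R M] :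
    LE1 (psi D w) (psi D (w ++ w')) M := by
  induction w generalizing M with
  | nil => exact JPP_le_psi D _ M
  | cons l w ih => exact Phi_mono D l (fun M _ _ => ih M) M

theorem psi_le_phi (w : List (Fin D.L)) (M : Type u) [AddCommGroup M] [Module R M] :
    LE1 (psi D w) (phi D w) M := by
  induction w generalizing M with
  | nil => exact fun a _ => topPP_ev1 M a
  | cons l w ih => exact Phi_mono D l (fun M _ _ => ih M) M

theorem c_sum {M : Type v} [AddCommGroup M] [Module R M] (l : Fin D.L) (f : Fin D.L → M) :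
    ∑ i, D.c l i • f i - D.x l • f l ∈ XM D.x l M := by
  classical
  refine ⟨fun i => if i < l then f i else 0, fun i hi => ?_, ?_⟩
  · change (if i < l then f i else 0) = 0
    rw [if_neg]
    exact not_lt.mpr hi
  · rw [sub_eq_iff_eq_add]
    have : D.x l • f l = ∑ i, if i = l then D.x i • f i else 0 := by simp
    rw [this, ← Finset.sum_add_distrib]
    refine Finset.sum_congr rfl fun i _ => ?_
    unfold RData.c
    rcases lt_trichotomy i l with h | h | h
    · simp [h.le, h, h.ne]
    · simp [h]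
    · simp [not_le.mpr h, not_lt.mpr h.le, h.ne']

/-- The step lemma. -/
theorem step {F M : Type u} [AddCommGroup F] [Module R F] [Module.Projective R F]
    [AddCommGroup M] [Module R M] (π : F →ₗ[R] M) (hπ : Function.Surjective π) (θ θ' : PP R 1)
    (hJ : LE1 (JPP D) θ' (LinearMap.ker π)) (hle : LE1 θ' θ (LinearMap.ker π))
    (hΦ : ∀ l, LE1 (Phi D l θ) (Phi D l θ') M) (κ : LinearMap.ker π)
    (hκ : θ.ev1 _ κ) (hκJ : (κ : F) ∈ XM D.x D.L F) : θ'.ev1 _ κ := by
  -- prove for all `l ≤ L` by induction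
  have key : ∀ l : ℕ, l ≤ D.L → ∀ κ : LinearMap.ker π, θ.ev1 _ κ → (κ : F) ∈ XM D.x l F →
      θ'.ev1 _ κ := by
    intro l
    induction l with
    | zero =>
      intro _ κ _ hκ
      obtain ⟨f, hf, hκf⟩ := hκ
      have : κ = 0 := by
        apply Subtype.ext
        rw [hκf]
        simp [hf]
      rw [this]
      exact ev1_zero _ _
    | succ l ih =>
      intro hl κ hκ hκX
      obtain ⟨f, hf, hκf⟩ := hκX
      let l' : Fin D.L := ⟨l, hl⟩
      have hκc : (κ : F) = ∑ i, D.c l' i • f i := by
        rw [hκf]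
        refine Finset.sum_congr rfl fun i _ => ?_
        unfold RData.c
        by_cases hi : i ≤ l'
        · rw [if_pos hi]
        · rw [if_neg hi, hf i, smul_zero, smul_zero]
          exact Nat.succ_le_of_lt (not_le.mp hi)
      have h1 : (Phi D l' θ).ev1 M (D.e l' • π (f l')) := by
        rw [Phi_iff' D l' θ π hπ]
        exact ⟨f, κ, hκ, hκc, by simp⟩
      have h2 := hΦ l' _ h1
      rw [Phi_iff' D l' θ' π hπ] at h2
      obtain ⟨g, κ', hκ', hκ'g, hJM⟩ := h2
      rw [← smul_sub, ← map_sub, ← map_smul] at hJM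
      obtain ⟨j, hj, hj'⟩ := XM_lift D.x D.L π hπ hJM
      -- `ε = e • (f - g) - j ∈ K`
      let ε : LinearMap.ker π := ⟨D.e l' • (f l' - g l') - j, by
        rw [LinearMap.mem_ker, map_sub, hj', sub_self]⟩
      have hxε : θ'.ev1 _ (D.x l' • ε) := by
        apply hJ
        rw [JPP_ev1]
        exact inX_smul (inX_gen _ _ l' l'.2) ε
      -- the remainder
      have hrem : ((κ - κ' - D.x l' • ε : LinearMap.ker π) : F) ∈ XM D.x l F := by
        rw [Submodule.coe_sub, Submodule.coe_sub, Submodule.coe_smul]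
        change (κ : F) - (κ' : F) - D.x l' • (D.e l' • (f l' - g l') - j) ∈ XM D.x l F
        have e1 : (κ : F) - (κ' : F) - D.x l' • (D.e l' • (f l' - g l') - j) =
            (∑ i, D.c l' i • (f i - g i) - D.x l' • (f l' - g l')) +
            (D.x l' - D.x l' * D.e l') • (f l' - g l') + D.x l' • j := by
          rw [hκc, hκ'g, sub_smul, mul_smul]
          simp only [smul_sub, Finset.sum_sub_distrib]
          abel
        rw [e1]
        refine add_mem (add_mem ?_ ?_) ?_
        · exact c_sum D l' (fun i => f i - g i)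
        · exact inX_smul (D.h2 l') _
        · exact x_smul_mem D l' hj
      have h3 : θ.ev1 _ (κ - κ' - D.x l' • ε) := by
        rw [sub_eq_add_neg, sub_eq_add_neg]
        exact ev1_add _ _ (ev1_add _ _ hκ (ev1_neg _ _ (hle _ hκ'))) (ev1_neg _ _ (hle _ hxε))
      have h4 := ih (Nat.le_of_succ_le hl) _ h3 hrem
      have h5 : κ = (κ - κ' - D.x l' • ε) + κ' + D.x l' • ε := by abel
      rw [h5]
      exact ev1_add _ _ (ev1_add _ _ h4 hκ') hxε
  exact key D.L le_rfl κ hκ hκJ

/-- Flatness: values of nonempty words on submodules of free modules lie in `J F`. -/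
theorem phi_mem_JF (B : Type u) (K : Submodule R (B →₀ R)) (l : Fin D.L) (θ : PP R 1) (κ : K)
    (hκ : (Phi D l θ).ev1 K κ) : (κ : B →₀ R) ∈ XM D.x D.L (B →₀ R) := by
  classical
  rw [Phi_iff] at hκ
  obtain ⟨f, κ', -, hκ'f, hκ⟩ := hκ
  let g : Fin D.L → (B →₀ R) := fun i => (canon R K (f i) : K)
  have h0 : ∑ i, D.c l i • g i = 0 := by
    have h1 : canon R K (κ' : K →₀ R) = 0 := κ'.2
    rw [hκ'f, map_sum] at h1
    have h2 := congrArg Subtype.val h1
    rw [Submodule.coe_sum, Submodule.coe_zero] at h2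
    rw [← h2]
    refine Finset.sum_congr rfl fun i _ => ?_
    simp [g]
  have h1 : ∀ b, inX D.x D.L (D.e l * g l b) := by
    intro b
    apply D.h3
    have h2 := c_sum D l (fun i => g i b)
    have h3 : ∑ i, D.c l i • (g i b) = 0 := by
      have := DFunLike.congr_fun h0 b
      simpa [Finsupp.finsetSum_apply] using this
    rw [h3, zero_sub] at h2
    have h4 := neg_mem h2
    rw [neg_neg] at h4
    obtain ⟨c, hc, hc'⟩ := h4
    exact ⟨c, hc, by simpa using hc'⟩
  have h2 : D.e l • g l ∈ XM D.x D.L (B →₀ R) := by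
    rw [← Finsupp.sum_single (D.e l • g l), Finsupp.sum]
    refine AddSubgroup.sum_mem _ fun b _ => ?_
    obtain ⟨c, hc, hc'⟩ := h1 b
    refine ⟨fun i => Finsupp.single b (c i), fun i hi => by simp [hc i hi], ?_⟩
    rw [Finsupp.smul_apply, smul_eq_mul, hc']
    change Finsupp.singleAddHom b (∑ i, D.x i * c i) = _
    rw [map_sum]
    refine Finset.sum_congr rfl fun i _ => ?_
    rw [Finsupp.smul_single, smul_eq_mul]
    rfl
  have h3 := XM_map D.x D.L K.subtype hκ
  rw [map_sub, map_smul] at h3
  have h4 : (κ : B →₀ R) = (K.subtype κ - D.e l • K.subtype (canon R K (f l))) + D.e l • g l := by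
    simp [g]
  rw [h4]
  exact add_mem h3 h2

/-- Projective dimension at most `n`. -/
def PDle (R : Type u) [Ring R] : ℕ → ∀ (M : Type u) [AddCommGroup M] [Module R M], Prop
  | 0, M, _, _ => Module.Projective R M
  | n + 1, M, _, _ => ∃ (P : Type u) (_ : AddCommGroup P) (_ : Module R P) (π : P →ₗ[R] M),
      Module.Projective R P ∧ Function.Surjective π ∧ PDle R n (LinearMap.ker π)

/-- If all words of length `n + 1` are closed on `M` then `pd M ≤ n`. -/
theorem PDle_of_closed (n : ℕ) : ∀ (M : Type u) [AddCommGroup M] [Module R M],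
    (∀ w : List (Fin D.L), w.length = n + 1 → LE1 (phi D w) (psi D w) M) → PDle R n M := by
  induction n with
  | zero =>
    intro M _ _ h
    refine D.crit (M →₀ R) M (canon R M) (canon_surj M) fun κ hκ => ?_
    rw [← JPP_ev1]
    exact step D (canon R M) (canon_surj M) topPP (JPP D) (fun a h => h)
      (fun a _ => topPP_ev1 _ a) (fun l => h [l] rfl) κ (topPP_ev1 _ κ) hκ
  | succ n ih =>
    intro M _ _ h
    refine ⟨M →₀ R, inferInstance, inferInstance, canon R M, inferInstance, canon_surj M,
      ih _ fun w hw => ?_⟩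
    intro κ hκ
    have hκJ : (κ : M →₀ R) ∈ XM D.x D.L (M →₀ R) := by
      cases w with
      | nil => simp at hw
      | cons l w => exact phi_mem_JF D M _ l _ κ hκ
    exact step D (canon R M) (canon_surj M) (phi D w) (psi D w) (JPP_le_psi D w _)
      (psi_le_phi D w _) (fun l => h (l :: w) (by simp [hw])) κ hκ hκJ

/-- If `pd M ≤ n` then all words of length `n + 1` are closed on `M`. -/
theorem closed_of_PDle (n : ℕ) : ∀ (M : Type u) [AddCommGroup M] [Module R M], PDle R n M →
    ∀ w : List (Fin D.L), w.length = n + 1 → LE1 (phi D w) (psi D w) M := by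
  induction n with
  | zero =>
    intro M _ _ hM w hw
    obtain ⟨l, rfl⟩ := List.length_eq_one_iff.mp hw
    have : Module.Projective R M := hM
    intro a ha
    change (Phi D l topPP).ev1 M a at ha
    change (Phi D l (JPP D)).ev1 M a
    rw [Phi_iff' D l _ (LinearMap.id : M →ₗ[R] M) Function.surjective_id] at ha ⊢
    obtain ⟨f, κ, _, h1, h2⟩ := ha
    refine ⟨f, κ, ?_, h1, h2⟩
    have : κ = 0 := by
      apply Subtype.ext
      exact κ.2
    rw [this]
    exact ev1_zero _ _
  | succ n ih =>
    intro M _ _ hM w hw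
    obtain ⟨P, _, _, π, hP, hπ, hK⟩ := hM
    cases w with
    | nil => simp at hw
    | cons l w =>
      have hw' : w.length = n + 1 := by simpa using hw
      intro a ha
      rw [phi_cons, Phi_iff' D l _ π hπ] at ha
      rw [psi_cons, Phi_iff' D l _ π hπ]
      obtain ⟨f, κ, hκ, h1, h2⟩ := ha
      exact ⟨f, κ, ih _ hK w hw' _ hκ, h1, h2⟩

end

end Pool.Agent.Work.MP_95e4ab_al
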