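import Mathlib

set_option autoImplicit false

/-! The Ziegler spectrum of a ring as a topological space. Modules over `S` are left `S`-modules;
right `R`-modules are modules over `S = Rᵐᵒᵖ`. -/

namespace Pool.Agent.Work.MP_95e4ab_al.Spectrum

universe u v

open CategoryTheory

/-- A positive primitive formula over `S` in the free variables `x 0, …, x (n - 1)`: the formula
`∃ y, A x + B y = 0`, a system of `m` homogeneous linear equations with `k` bound variables. -/
structure PPFormula (S : Type u) (n : ℕ) where
  /-- number of equations -/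
  m : ℕ
  /-- number of bound variables -/
  k : ℕ
  /-- coefficients of the free variables -/
  A : Fin m → Fin n → S
  /-- coefficients of the bound variables -/
  B : Fin m → Fin k → S

/-- The solution set `φ(M) ⊆ M^n` of a pp formula. -/
def PPFormula.sol {S : Type u} [Ring S] {n : ℕ} (φ : PPFormula S n) (M : Type v)
    [AddCommGroup M] [Module S M] : Set (Fin n → M) :=
  {x | ∃ y : Fin φ.k → M, ∀ i, ∑ s, φ.A i s • x s + ∑ j, φ.B i j • y j = 0}

/-- `A` is a pure submodule of `B`: every finite system of linear equations with right-hand sides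
in `A` which is solvable in `B` is solvable in `A`. -/
def IsPureSubmodule {S : Type u} [Ring S] {B : Type v} [AddCommGroup B] [Module S B]
    (A : Submodule S B) : Prop :=
  ∀ (m k : ℕ) (r : Fin m → Fin k → S) (a : Fin m → A),
    (∃ y : Fin k → B, ∀ i, ∑ j, r i j • y j = a i) →
      ∃ y : Fin k → A, ∀ i, ∑ j, r i j • y j = a i

/-- `N` is pure-injective: every homomorphism to `N` from a pure submodule `A` of a module `B`
extends to `B`. -/
def IsPureInjective (S : Type u) [Ring S] (N : Type u) [AddCommGroup N] [Module S N] : Prop :=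
  ∀ (B : Type u) [AddCommGroup B] [Module S B] (A : Submodule S B), IsPureSubmodule A →
    ∀ f : A →ₗ[S] N, ∃ g : B →ₗ[S] N, ∀ a : A, g a = f a

/-- `N` is indecomposable: nonzero, and not the direct sum of two nonzero submodules. -/
def IsIndecomposable (S : Type u) [Ring S] (N : Type u) [AddCommGroup N] [Module S N] : Prop :=
  Nontrivial N ∧ ∀ A B : Submodule S N, IsCompl A B → A = ⊥ ∨ B = ⊥

/-- The indecomposable pure-injective modules. -/
def IndecPureInj (S : Type u) [Ring S] : Type (u + 1) :=
  {N : ModuleCat.{u} S // IsIndecomposable S N ∧ IsPureInjective S N}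

/-- Isomorphism of modules. -/
def isoSetoid (S : Type u) [Ring S] : Setoid (IndecPureInj S) where
  r N N' := Nonempty (N.1 ≃ₗ[S] N'.1)
  iseqv := ⟨fun N => ⟨LinearEquiv.refl S N.1⟩, fun ⟨e⟩ => ⟨e.symm⟩, fun ⟨e⟩ ⟨f⟩ => ⟨e.trans f⟩⟩

/-- The points of the Ziegler spectrum: the isomorphism classes of indecomposable pure-injective
modules. -/
def Zg (S : Type u) [Ring S] : Type (u + 1) := Quotient (isoSetoid S)

/-- The isomorphism class of an indecomposable pure-injective module. -/
def Zg.mk {S : Type u} [Ring S] (N : IndecPureInj S) : Zg S := Quotient.mk (isoSetoid S) N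

/-- The set `(φ/ψ)` of the points `N` with `φ(N) ⊋ ψ(N)`. -/
def basicOpen {S : Type u} [Ring S] {n : ℕ} (φ ψ : PPFormula S n) : Set (Zg S) :=
  {p | ∃ N : IndecPureInj S, Zg.mk N = p ∧ ψ.sol N.1 ⊂ φ.sol N.1}

/-- The Ziegler topology: the topology generated by the sets `(φ/ψ)`, for all pairs `φ ≥ ψ` of pp
formulas in the same free variables. -/
instance zieglerTopology (S : Type u) [Ring S] : TopologicalSpace (Zg S) :=
  TopologicalSpace.generateFrom {U | ∃ (n : ℕ) (φ ψ : PPFormula S n),
    (∀ M : ModuleCat.{u} S, ψ.sol M ⊆ φ.sol M) ∧ U = basicOpen φ ψ}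

/-- The set of the points of finite projective dimension. -/
def finiteProjDim (S : Type u) [Ring S] : Set (Zg S) :=
  {p | ∃ N : IndecPureInj S, Zg.mk N = p ∧ projectiveDimension N.1 ≠ ⊤}

end Pool.Agent.Work.MP_95e4ab_al.Spectrum
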