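import Pool.Agent.Work.MP_95e4ab_al.Final
import Pool.Agent.Work.MP_95e4ab_al.TwinDefs

set_option autoImplicit false

namespace Pool.Agent.Work.MP_95e4ab_al.Spectrum

universe u v w

open Filter Topology MulOpposite CategoryTheory

attribute [local instance] dualOp dualL

/-- Purity for systems indexed by arbitrary finite types. -/
theorem IsPureSubmodule.fin {S : Type u} [Ring S] {B : Type v} [AddCommGroup B] [Module S B]
    {A : Submodule S B} (hA : IsPureSubmodule A) {ι κ : Type*} [Fintype ι] [Fintype κ]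
    (r : ι → κ → S) (a : ι → A) (h : ∃ y : κ → B, ∀ i, ∑ j, r i j • y j = a i) :
    ∃ y : κ → A, ∀ i, ∑ j, r i j • y j = a i := by
  obtain ⟨y, hy⟩ := h
  obtain ⟨z, hz⟩ := hA (Fintype.card ι) (Fintype.card κ)
    (fun i j => r ((Fintype.equivFin ι).symm i) ((Fintype.equivFin κ).symm j))
    (fun i => a ((Fintype.equivFin ι).symm i))
    ⟨fun j => y ((Fintype.equivFin κ).symm j), fun i => by
      rw [← hy]
      exact Fintype.sum_equiv (Fintype.equivFin κ).symm _ _ fun j => rfl⟩
  refine ⟨fun j => z (Fintype.equivFin κ j), fun i => ?_⟩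
  have h1 := hz (Fintype.equivFin ι i)
  simp only [Equiv.symm_apply_apply] at h1
  rw [← h1]
  exact Fintype.sum_equiv (Fintype.equivFin κ) _ _ fun j => by simp

section compact

variable {R : Type u} [Ring R] {P : Type v} [AddCommGroup P] [Module R P] [TopologicalSpace P]
  [CompactSpace P] [T2Space P] [ContinuousAdd P] [ContinuousConstSMul R P]

/-- Compact modules are pure-injective. -/
theorem compact_extends {B : Type w} [AddCommGroup B] [Module R B] (A : Submodule R B)
    (hA : IsPureSubmodule A) (f : A →ₗ[R] P) : ∃ g : B →ₗ[R] P, ∀ a : A, g a = f a := by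
  classical
  have key : ∀ E : Finset (B →₀ R), ∃ t : B → P, (∀ a : A, t a = f a) ∧
      ∀ ρ ∈ E, Finsupp.linearCombination R (id : B → B) ρ = 0 →
        Finsupp.linearCombination R t ρ = 0 := by
    intro E
    let V : Finset B := E.biUnion fun ρ => ρ.support
    let V0 : Finset B := V.filter (fun v => v ∈ A)
    let V1 : Finset B := V.filter (fun v => v ∉ A)
    let E' : Finset (B →₀ R) := E.filter fun ρ => Finsupp.linearCombination R (id : B → B) ρ = 0
    have hEV : ∀ ρ ∈ E, ρ.support ⊆ V := fun ρ hρ x hx => by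
      simp only [V, Finset.mem_biUnion]
      exact ⟨ρ, hρ, hx⟩
    have hsumB : ∀ (t : B → B) (ρ : B →₀ R),
        ρ.support ⊆ V → Finsupp.linearCombination R t ρ = ∑ v ∈ V, ρ v • t v := by
      intro t ρ hρ
      rw [Finsupp.linearCombination_apply, Finsupp.sum_of_support_subset _ hρ _ (by simp)]
    have hsumP : ∀ (t : B → P) (ρ : B →₀ R),
        ρ.support ⊆ V → Finsupp.linearCombination R t ρ = ∑ v ∈ V, ρ v • t v := by
      intro t ρ hρ
      rw [Finsupp.linearCombination_apply, Finsupp.sum_of_support_subset _ hρ _ (by simp)]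
    have hV0 : ∀ v : V0, (v : B) ∈ A := fun v => (Finset.mem_filter.1 v.2).2
    let c : (B →₀ R) → A := fun ρ => ∑ v : V0, ρ v • (⟨v, hV0 v⟩ : A)
    have hc : ∀ ρ, ((c ρ : A) : B) = ∑ v ∈ V0, ρ v • v := by
      intro ρ
      simp only [c, Submodule.coe_sum, Submodule.coe_smul]
      exact Finset.sum_coe_sort V0 (fun v => ρ v • v)
    have hsplitB : ∀ (g : B → B), ∑ v ∈ V, g v = ∑ v ∈ V0, g v + ∑ v ∈ V1, g v :=
      fun g => (Finset.sum_filter_add_sum_filter_not V _ g).symm
    have hsplitP : ∀ (g : B → P), ∑ v ∈ V, g v = ∑ v ∈ V0, g v + ∑ v ∈ V1, g v :=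
      fun g => (Finset.sum_filter_add_sum_filter_not V _ g).symm
    obtain ⟨y, hy⟩ := hA.fin (ι := E') (κ := V1) (fun ρ v => (ρ : B →₀ R) v)
      (fun ρ => - c ρ) ⟨fun v => v, fun ρ => by
        have hρ := ρ.2
        simp only [E', Finset.mem_filter] at hρ
        have h1 := hρ.2
        rw [hsumB id _ (hEV _ hρ.1)] at h1
        simp only [id] at h1
        rw [hsplitB] at h1
        rw [Submodule.coe_neg, hc, eq_neg_iff_add_eq_zero, ← h1, add_comm]
        congr 1
        exact Finset.sum_coe_sort V1 (fun v => (ρ : B →₀ R) v • v)⟩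
    refine ⟨fun x => if hx : x ∈ A then f ⟨x, hx⟩ else if hx' : x ∈ V1 then f (y ⟨x, hx'⟩) else 0,
      fun a => ?_, fun ρ hρ hρ0 => ?_⟩
    · exact dif_pos a.2
    · rw [hsumP _ ρ (hEV ρ hρ), hsplitP]
      have e0 : ∑ v ∈ V0, ρ v • (if hx : v ∈ A then f ⟨v, hx⟩ else
          if hx' : v ∈ V1 then f (y ⟨v, hx'⟩) else 0) = f (c ρ) := by
        simp only [c, map_sum, map_smul]
        rw [← Finset.sum_coe_sort V0]
        refine Finset.sum_congr rfl fun v _ => ?_
        rw [dif_pos (hV0 v)]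
      have e1 : ∑ v ∈ V1, ρ v • (if hx : v ∈ A then f ⟨v, hx⟩ else
          if hx' : v ∈ V1 then f (y ⟨v, hx'⟩) else 0) = f (∑ v : V1, ρ v • y v) := by
        simp only [map_sum, map_smul]
        rw [← Finset.sum_coe_sort V1]
        refine Finset.sum_congr rfl fun v _ => ?_
        rw [dif_neg (Finset.mem_filter.1 v.2).2, dif_pos v.2]
      rw [e0, e1, hy ⟨ρ, Finset.mem_filter.mpr ⟨hρ, hρ0⟩⟩, map_neg, add_neg_cancel]
  choose t ht ht' using key
  let U : Ultrafilter (Finset (B →₀ R)) := Ultrafilter.of atTop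
  obtain ⟨L, hL⟩ := exists_lim (R := R) (P := P) U
  let T : B → P := fun x => L (fun E => t E x)
  have hT : ∀ x, Tendsto (fun E => t E x) U (𝓝 (T x)) := fun x => hL _
  have hrel : ∀ ρ : B →₀ R, Finsupp.linearCombination R (id : B → B) ρ = 0 →
      Finsupp.linearCombination R T ρ = 0 := by
    intro ρ hρ
    have h1 : Tendsto (fun E => Finsupp.linearCombination R (t E) ρ) U
        (𝓝 (Finsupp.linearCombination R T ρ)) := by
      simp only [Finsupp.linearCombination_apply, Finsupp.sum]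
      exact tendsto_finsetSum _ fun x _ => (hT x).const_smul _
    have h2 : Tendsto (fun E => Finsupp.linearCombination R (t E) ρ) U (𝓝 0) := by
      refine Tendsto.congr' ?_ tendsto_const_nhds
      have h3 : ∀ᶠ E : Finset (B →₀ R) in atTop, ({ρ} : Finset (B →₀ R)) ⊆ E :=
        eventually_ge_atTop _
      filter_upwards [h3.filter_mono (Ultrafilter.of_le atTop)] with E hE
      exact (ht' E ρ (hE (Finset.mem_singleton_self ρ)) hρ).symm
    exact tendsto_nhds_unique h1 h2
  refine ⟨{ toFun := T, map_add' := fun x y => ?_, map_smul' := fun r x => ?_ }, fun a => ?_⟩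
  · have := hrel (Finsupp.single (x + y) 1 - Finsupp.single x 1 - Finsupp.single y 1)
      (by simp [map_sub, Finsupp.linearCombination_single])
    simp only [map_sub, Finsupp.linearCombination_single, one_smul] at this
    rw [sub_sub, sub_eq_zero] at this
    exact this
  · have := hrel (Finsupp.single (r • x) 1 - Finsupp.single x r)
      (by simp [map_sub, Finsupp.linearCombination_single])
    simp only [map_sub, Finsupp.linearCombination_single, one_smul] at this
    rw [sub_eq_zero] at this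
    exact this
  · have h1 := hT (a : B)
    simp only [ht] at h1
    exact tendsto_nhds_unique h1 tendsto_const_nhds

/-- pp-definable subgroups of compact modules are closed. -/
theorem isClosed_ev {n : ℕ} (φ : PP R n) : IsClosed (φ.ev P : Set (Fin n → P)) := by
  let K : Set ((Fin n → P) × (Fin φ.k → P)) :=
    {p | ∀ i, ∑ s, φ.A i s • p.1 s + ∑ j, φ.B i j • p.2 j = 0}
  have hK : IsClosed K := by
    simp only [K, Set.ofPred_forall]
    refine isClosed_iInter fun i => isClosed_eq ?_ continuous_const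
    refine Continuous.add ?_ ?_
    · exact continuous_finsetSum _ fun s _ =>
        ((continuous_apply s).comp continuous_fst).const_smul _
    · exact continuous_finsetSum _ fun j _ =>
        ((continuous_apply j).comp continuous_snd).const_smul _
  have h1 : (φ.ev P : Set (Fin n → P)) = Prod.fst '' K := by
    ext x
    constructor
    · rintro ⟨y, hy⟩
      exact ⟨(x, y), hy, rfl⟩
    · rintro ⟨⟨x', y⟩, hy, rfl⟩
      exact ⟨y, hy⟩
  rw [h1]
  exact (hK.isCompact.image continuous_fst).isClosed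

end compact

/-- The formula `∃ y, χ(x, y) ∧ α(y)`. -/
noncomputable def link {R : Type u} [Ring R] {n m : ℕ} (χ : PP R (n + m)) (α : PP R m) : PP R n :=
  PP.ofFin (ι := Fin χ.m ⊕ Fin α.m) (κ := Fin m ⊕ (Fin χ.k ⊕ Fin α.k))
    (Sum.elim (fun i s => χ.A i (Fin.castAdd m s)) (fun _ _ => 0))
    (Sum.elim
      (fun i => Sum.elim (fun t => χ.A i (Fin.natAdd n t)) (Sum.elim (χ.B i) (fun _ => 0)))
      (fun i => Sum.elim (α.A i) (Sum.elim (fun _ => 0) (α.B i))))

theorem mem_link {R : Type u} [Ring R] {n m : ℕ} (χ : PP R (n + m)) (α : PP R m)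
    (M : Type v) [AddCommGroup M] [Module R M] (x : Fin n → M) :
    x ∈ (link χ α).ev M ↔ ∃ y ∈ α.ev M, Fin.append x y ∈ χ.ev M := by
  unfold link
  rw [PP.mem_ofFin]
  constructor
  · rintro ⟨z, hz⟩
    refine ⟨fun t => z (Sum.inl t), ⟨fun j => z (Sum.inr (Sum.inr j)), fun i => ?_⟩,
      ⟨fun j => z (Sum.inr (Sum.inl j)), fun i => ?_⟩⟩
    · have := hz (Sum.inr i)
      simpa [Fintype.sum_sum_type] using this
    · have := hz (Sum.inl i)
      simp only [Fintype.sum_sum_type, Sum.elim_inl, Sum.elim_inr, zero_smul,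
        Finset.sum_const_zero, add_zero] at this
      rw [Fin.sum_univ_add]
      simp only [Fin.append_left, Fin.append_right]
      rw [add_assoc]
      exact this
  · rintro ⟨y, ⟨z, hz⟩, ⟨w, hw⟩⟩
    refine ⟨Sum.elim y (Sum.elim w z), ?_⟩
    rintro (i | i)
    · have := hw i
      rw [Fin.sum_univ_add] at this
      simp only [Fin.append_left, Fin.append_right] at this
      simp only [Fintype.sum_sum_type, Sum.elim_inl, Sum.elim_inr, zero_smul,
        Finset.sum_const_zero, add_zero]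
      rw [← add_assoc]
      exact this
    · simpa [Fintype.sum_sum_type] using hz i

/-- The hull of an irreducible tuple in a compact module. -/
theorem zg_core' {R : Type u} [Ring R] {P : Type u} [AddCommGroup P] [Module R P]
    [TopologicalSpace P] [CompactSpace P] [T2Space P] [ContinuousAdd P] [ContinuousConstSMul R P]
    {n : ℕ} (a : Fin n → P) (ha : a ≠ 0)
    (irr : ∀ b c : Fin n → P, (∀ φ : PP R n, a ∈ φ.ev P → b ∈ φ.ev P) →
      (∀ φ : PP R n, a ∈ φ.ev P → c ∈ φ.ev P) → b + c = a →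
      (∀ φ : PP R n, b ∈ φ.ev P → a ∈ φ.ev P) ∨ (∀ φ : PP R n, c ∈ φ.ev P → a ∈ φ.ev P)) :
    ∃ N : Submodule R P, (IsIndecomposable R N ∧ IsPureInjective R N) ∧
      (∃ r : P →ₗ[R] N, ∀ x : N, r x = x) ∧ (∀ s, a s ∈ N) ∧
      ∀ (m : ℕ) (α β : PP R m), ¬ α.ev N ≤ β.ev N → ∃ φ ψ : PP R n, a ∈ φ.ev P ∧ a ∉ ψ.ev P ∧
        ∀ (M : Type u) [AddCommGroup M] [Module R M], α.ev M ≤ β.ev M → φ.ev M ≤ ψ.ev M := by
  obtain ⟨e, hee, hea, hmin⟩ := exists_hull (R := R) a
  let N : Submodule R P := LinearMap.range e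
  let r : P →ₗ[R] N := e.rangeRestrict
  have hr : ∀ x : N, r x = x := by
    rintro ⟨x, y, rfl⟩
    apply Subtype.ext
    exact hee y
  have hre : ∀ x : P, ((r x : N) : P) = e x := fun x => rfl
  have haN : ∀ s, a s ∈ N := fun s => ⟨a s, hea s⟩
  have hker : ∀ (A B : Submodule R N) (h : IsCompl A B),
      (∀ φ : PP R n, (fun s => ((A.projection B h (r (a s)) : N) : P)) ∈ φ.ev P → a ∈ φ.ev P) →
      B = ⊥ := by
    intro A B h hpp
    obtain ⟨t, ht⟩ := exists_endo _ a hpp
    let u : P →ₗ[R] P := t ∘ₗ N.subtype ∘ₗ (A.projection B h) ∘ₗ r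
    have hu : ∀ s, u (a s) = a s := fun s => ht s
    obtain ⟨s, hs⟩ := hmin u hu
    rw [Submodule.eq_bot_iff]
    intro y hy
    have h1 : e (y : P) = (y : P) := by
      have := hr y
      rw [← hre, this]
    have h2 : u (y : P) = 0 := by
      change t ((A.projection B h (r (y : P)) : N) : P) = 0
      rw [hr y, Submodule.projection_apply_of_mem_right h hy]
      simp
    have h3 := hs (y : P)
    rw [h1, h2, map_zero, map_zero] at h3
    exact Subtype.ext h3.symm
  refine ⟨N, ⟨⟨?_, ?_⟩, ?_⟩, ⟨r, hr⟩, haN, ?_⟩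
  · obtain ⟨s, hs⟩ := Function.ne_iff.mp ha
    exact ⟨⟨⟨a s, haN s⟩, 0, fun h => hs (congrArg Subtype.val h)⟩⟩
  · intro A B h
    have hfun : ∀ (A B : Submodule R N) (h : IsCompl A B) (φ : PP R n), a ∈ φ.ev P →
        (fun s => ((A.projection B h (r (a s)) : N) : P)) ∈ φ.ev P := by
      intro A B h φ hφ
      exact φ.ev_map (N.subtype ∘ₗ (A.projection B h) ∘ₗ r) hφ
    rcases irr _ _ (hfun A B h) (hfun B A h.symm) (by
      funext s
      change ((A.projection B h (r (a s)) : N) : P) + ((B.projection A h.symm (r (a s)) : N) : P)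
        = a s
      rw [← Submodule.coe_add, Submodule.projection_add_projection_eq_self]
      rw [hre, hea]) with h1 | h1
    · exact Or.inr (hker A B h h1)
    · exact Or.inl (hker B A h.symm h1)
  · intro B _ _ A hA f
    obtain ⟨g, hg⟩ := compact_extends (P := P) A hA (N.subtype ∘ₗ f)
    refine ⟨r ∘ₗ g, fun a => ?_⟩
    rw [LinearMap.comp_apply, hg]
    exact hr (f a)
  · intro m α β hαβ
    obtain ⟨b, hb, hb'⟩ := SetLike.not_le_iff_exists.mp hαβ
    let b' : Fin m → P := fun s => b s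
    have hbα : b' ∈ α.ev P := α.ev_map N.subtype hb
    have hbβ : b' ∉ β.ev P := by
      intro h
      have h1 := β.ev_map r h
      have h2 : (fun s => r (b' s)) = b := funext fun s => hr (b s)
      rw [h2] at h1
      exact hb' h1
    by_contra hcon
    push Not at hcon
    -- every formula of the type of `(a, b)` is linked to an element of `β(P)`
    have h3 : ∀ χ : PP R (n + m), Fin.append a b' ∈ χ.ev P →
        ∃ y ∈ β.ev P, Fin.append a y ∈ χ.ev P := by
      intro χ hχ
      have h4 : a ∈ (link χ α).ev P := (mem_link χ α P a).2 ⟨b', hbα, hχ⟩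
      by_contra h5
      have h6 : a ∉ (link χ β).ev P := fun h => h5 ((mem_link χ β P a).1 h)
      obtain ⟨M, _, _, h7, h8⟩ := hcon (link χ α) (link χ β) h4 h6
      apply h8
      intro x hx
      obtain ⟨y, hy, hy'⟩ := (mem_link χ α M x).1 hx
      exact (mem_link χ β M x).2 ⟨y, h7 hy, hy'⟩
    let Ty : Type u := {χ : PP R (n + m) // Fin.append a b' ∈ χ.ev P}
    let K : Ty → Set (Fin m → P) := fun χ => {y | y ∈ β.ev P ∧ Fin.append a y ∈ χ.1.ev P}
    have hKclosed : ∀ χ, IsClosed (K χ) := by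
      intro χ
      refine (isClosed_ev β).inter ?_
      have hcont : Continuous (fun y : Fin m → P => Fin.append a y) := by
        refine continuous_pi fun j => ?_
        refine Fin.addCases (fun i => ?_) (fun i => ?_) j
        · simp only [Fin.append_left]
          exact continuous_const
        · simp only [Fin.append_right]
          exact continuous_apply i
      exact (isClosed_ev χ.1).preimage hcont
    have hTne : Nonempty Ty := by
      refine ⟨⟨⟨0, 0, fun i => i.elim0, fun i => i.elim0⟩, ⟨fun j => j.elim0, fun i => i.elim0⟩⟩⟩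
    have hdir : Directed (· ⊇ ·) K := by
      rintro χ χ'
      refine ⟨⟨PP.inf χ.1 χ'.1, (PP.mem_inf _ _ _ _).2 ⟨χ.2, χ'.2⟩⟩, ?_, ?_⟩
      · rintro y ⟨hy, hy'⟩
        exact ⟨hy, ((PP.mem_inf _ _ _ _).1 hy').1⟩
      · rintro y ⟨hy, hy'⟩
        exact ⟨hy, ((PP.mem_inf _ _ _ _).1 hy').2⟩
    have hne := IsCompact.nonempty_iInter_of_directed_nonempty_isCompact_isClosed K hdir
      (fun χ => by
        obtain ⟨y, hy, hy'⟩ := h3 χ.1 χ.2
        exact ⟨y, hy, hy'⟩) (fun χ => (hKclosed χ).isCompact) hKclosed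
    obtain ⟨y, hy⟩ := hne
    rw [Set.mem_iInter] at hy
    obtain ⟨t, ht⟩ := exists_endo (Fin.append a b') (Fin.append a y)
      (fun χ hχ => (hy ⟨χ, hχ⟩).2)
    have hta : ∀ s, t (a s) = a s := fun s => by
      have := ht (Fin.castAdd m s)
      simpa [Fin.append_left] using this
    have htb : ∀ s, t (b' s) = y s := fun s => by
      have := ht (Fin.natAdd n s)
      simpa [Fin.append_right] using this
    obtain ⟨s, hs⟩ := hmin t hta
    have hyβ : y ∈ β.ev P := (hy (Classical.choice hTne)).1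
    have h9 := β.ev_map (s ∘ₗ e) hyβ
    have h10 : (fun i => (s ∘ₗ e) (y i)) = b' := by
      funext i
      have h11 : e (b' i) = b' i := by
        have := hr (b i)
        rw [← hre]
        exact congrArg Subtype.val this
      have h12 := hs (b' i)
      rw [h11, htb] at h12
      exact h12
    rw [h10] at h9
    exact hbβ h9

section family

variable {R : Type u} [Ring R] {n : ℕ} {J : Type w} (M : J → Type u) [∀ j, AddCommGroup (M j)]
  [∀ j, Module R (M j)]

variable {M}

/-- The existence theorem, with the neighbourhood property. -/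
theorem exists_point' (φ ψ : ℕ → PP R n) (hφ : ∀ k, LEf M (φ (k + 1)) (φ k))
    (hψ : ∀ k, LEf M (ψ k) (ψ (k + 1))) (hopen : ∀ k, ¬ LEf M (φ k) (ψ k)) :
    ∃ (N : Type u) (_ : AddCommGroup N) (_ : Module R N),
      (IsIndecomposable R N ∧ IsPureInjective R N) ∧
      (∀ k, ¬ (φ k).ev N ≤ (ψ k).ev N) ∧
      (∀ (n' : ℕ) (α β : PP R n'), LEf M α β → α.ev N ≤ β.ev N) ∧
      ∀ l : List (Σ m : ℕ, PP R m × PP R m), (∀ q ∈ l, ¬ q.2.1.ev N ≤ q.2.2.ev N) →
        ∃ φ' ψ' : PP R n, ¬ φ'.ev N ≤ ψ'.ev N ∧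
          ∀ (N' : Type u) [AddCommGroup N'] [Module R N'],
            (∀ (n' : ℕ) (α β : PP R n'), LEf M α β → α.ev N' ≤ β.ev N') →
            ¬ φ'.ev N' ≤ ψ'.ev N' → ∀ q ∈ l, ¬ q.2.1.ev N' ≤ q.2.2.ev N' := by
  obtain ⟨p, hp1, hp2, hp3, hp4, hp5⟩ := exists_type φ ψ hφ hψ hopen
  obtain ⟨P, _, _, _, _, _, _, _, a, ha, hP⟩ := exists_realization (M := M) p ⟨_, hp1 0⟩ hp3 hp4
  have hψm : ∀ j k, j ≤ k → LEf M (ψ j) (ψ k) := by
    intro j k hjk
    induction k, hjk using Nat.le_induction with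
    | base => exact LEf.refl _
    | succ k _ ih => exact ih.trans (hψ k)
  have ha0 : a ≠ 0 := by
    intro h
    apply hp2 0
    rw [← ha, h]
    exact zero_mem _
  obtain ⟨N, hN, ⟨r, hr⟩, haN, hlink⟩ := zg_core' (R := R) a ha0 (by
    intro b c hb hc hbc
    by_contra hcon
    push Not at hcon
    obtain ⟨⟨χ, hχb, hχ⟩, ⟨χ', hχc, hχ'⟩⟩ := hcon
    rw [ha] at hχ hχ'
    obtain ⟨θ, hθ, k, hk⟩ := hp5 χ hχ
    obtain ⟨θ', hθ', k', hk'⟩ := hp5 χ' hχ'
    have h1 : b ∈ (ψ (max k k')).ev P :=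
      hP n _ _ (hk.trans (hψm _ _ (le_max_left k k')))
        ((PP.mem_inf _ _ _ _).mpr ⟨hb θ ((ha θ).mpr hθ), hχb⟩)
    have h2 : c ∈ (ψ (max k k')).ev P :=
      hP n _ _ (hk'.trans (hψm _ _ (le_max_right k k')))
        ((PP.mem_inf _ _ _ _).mpr ⟨hc θ' ((ha θ').mpr hθ'), hχc⟩)
    have h3 := add_mem h1 h2
    rw [hbc, ha] at h3
    exact hp2 _ h3)
  have hret : (fun s => N.subtype (r (a s))) = a := by
    funext s
    have := hr ⟨a s, haN s⟩
    exact congrArg Subtype.val this
  have hopenN : ∀ φ' ψ' : PP R n, φ' ∈ p → ψ' ∉ p → ¬ φ'.ev N ≤ ψ'.ev N := by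
    intro φ' ψ' hφ' hψ' hk
    have h1 : a ∈ φ'.ev P := (ha _).mpr hφ'
    have h2 := φ'.ev_map r h1
    have h3 := ψ'.ev_map N.subtype (hk h2)
    rw [hret, ha] at h3
    exact hψ' h3
  refine ⟨N, inferInstance, inferInstance, hN, fun k => hopenN _ _ (hp1 k) (hp2 k), ?_, ?_⟩
  · intro n' α β h x hx
    have h1 := α.ev_map N.subtype hx
    have h2 := hP n' α β h h1
    have h3 := β.ev_map r h2
    have h4 : (fun s => r (N.subtype (x s))) = x := by
      funext s
      exact hr (x s)
    rwa [h4] at h3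
  · intro l hl
    have main : ∃ φ' ∈ p, ∃ K : ℕ, ∀ (N' : Type u) [AddCommGroup N'] [Module R N'],
        (∀ (n' : ℕ) (α β : PP R n'), LEf M α β → α.ev N' ≤ β.ev N') →
        ¬ φ'.ev N' ≤ (ψ K).ev N' → ∀ q ∈ l, ¬ q.2.1.ev N' ≤ q.2.2.ev N' := by
      induction l with
      | nil => exact ⟨φ 0, hp1 0, 0, fun N' _ _ _ _ q hq => by simp at hq⟩
      | cons q l ih =>
        obtain ⟨φ₁, hφ₁, K₁, h₁⟩ := ih (fun q hq => hl q (List.mem_cons_of_mem _ hq))
        obtain ⟨φ₂, ψ₂, h2, h3, h4⟩ := hlink q.1 q.2.1 q.2.2 (hl q List.mem_cons_self)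
        rw [ha] at h2 h3
        obtain ⟨θ, hθ, k, hk⟩ := hp5 ψ₂ h3
        refine ⟨PP.inf φ₁ (PP.inf θ φ₂), hp4 _ hφ₁ _ (hp4 _ hθ _ h2), max K₁ k,
          fun N' _ _ hcl hN' => ?_⟩
        obtain ⟨x, hx, hx'⟩ := SetLike.not_le_iff_exists.mp hN'
        rw [PP.mem_inf, PP.mem_inf] at hx
        intro q' hq'
        rcases List.mem_cons.1 hq' with rfl | hq'
        · intro hle
          apply hx'
          have h5 := h4 N' hle hx.2.2
          exact hcl n _ _ (hk.trans (hψm _ _ (le_max_right K₁ k)))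
            ((PP.mem_inf _ _ _ _).2 ⟨hx.2.1, h5⟩)
        · refine h₁ N' hcl (fun hle => hx' ?_) q' hq'
          exact hcl n _ _ (hψm _ _ (le_max_left K₁ k)) (hle hx.1)
    obtain ⟨φ', hφ', K, h⟩ := main
    exact ⟨φ', ψ K, hopenN _ _ hφ' (hp2 K), h⟩

end family

/-- Our pp formulas. -/
def toPP {S : Type u} {n : ℕ} (φ : PPFormula S n) : PP S n := ⟨φ.m, φ.k, φ.A, φ.B⟩

theorem mem_toPP {S : Type u} [Ring S] {n : ℕ} (φ : PPFormula S n) (M : Type v) [AddCommGroup M]
    [Module S M] (x : Fin n → M) : x ∈ (toPP φ).ev M ↔ x ∈ φ.sol M := Iff.rfl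

theorem sol_equiv {S : Type u} [Ring S] {n : ℕ} (φ : PPFormula S n) {M : Type v} [AddCommGroup M]
    [Module S M] {N : Type w} [AddCommGroup N] [Module S N] (e : M ≃ₗ[S] N) (x : Fin n → M) :
    (fun s => e (x s)) ∈ φ.sol N ↔ x ∈ φ.sol M := by
  rw [← mem_toPP, ← mem_toPP]
  constructor
  · intro h
    have := (toPP φ).ev_map e.symm.toLinearMap h
    simpa using this
  · intro h
    exact (toPP φ).ev_map e.toLinearMap h

theorem mem_basicOpen {S : Type u} [Ring S] {n : ℕ} (φ ψ : PPFormula S n)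
    (h : ∀ M : ModuleCat.{u} S, ψ.sol M ⊆ φ.sol M) (N : IndecPureInj S) :
    Zg.mk N ∈ basicOpen φ ψ ↔ ¬ (toPP φ).ev N.1 ≤ (toPP ψ).ev N.1 := by
  constructor
  · rintro ⟨N', hN', hlt⟩ hle
    obtain ⟨e⟩ : Nonempty (N'.1 ≃ₗ[S] N.1) := Quotient.exact hN'
    apply hlt.2
    intro x hx
    rw [← sol_equiv ψ e]
    exact hle ((sol_equiv φ e x).2 hx)
  · intro hle
    exact ⟨N, rfl, h N.1, fun hc => hle hc⟩

theorem mem_finiteProjDim {S : Type u} [Ring S] (N : IndecPureInj S) :
    Zg.mk N ∈ finiteProjDim S ↔ projectiveDimension N.1 ≠ ⊤ := by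
  constructor
  · rintro ⟨N', hN', h⟩
    obtain ⟨e⟩ : Nonempty (N'.1 ≃ₗ[S] N.1) := Quotient.exact hN'
    rwa [← ModuleCat.projectiveDimension_eq_of_linearEquiv e]
  · exact fun h => ⟨N, rfl, h⟩

/-- The recursive definition of projective dimension agrees with Mathlib's. -/
theorem PDle_iff {R : Type u} [Ring R] (n : ℕ) : ∀ M : ModuleCat.{u} R,
    PDle R n M ↔ HasProjectiveDimensionLE M n := by
  induction n with
  | zero =>
    intro M
    rw [← projective_iff_hasProjectiveDimensionLE_zero, ← IsProjective.iff_projective]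
    exact Iff.rfl
  | succ n ih =>
    intro M
    constructor
    · rintro ⟨P, _, _, π, hP, hπ, hK⟩
      have hS : π.shortComplexKer.ShortExact := LinearMap.shortExact_shortComplexKer hπ
      have hP' : Projective π.shortComplexKer.X₂ := by
        rw [← IsProjective.iff_projective]
        exact hP
      have h1 := (ih (ModuleCat.of R (LinearMap.ker π))).1 hK
      exact (hS.hasProjectiveDimensionLT_X₃_iff n hP').2 h1
    · intro h
      let S := M.projectiveShortComplex
      have hS : S.ShortExact := M.shortExact_projectiveShortComplex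
      have hP : Projective S.X₂ := by
        rw [← IsProjective.iff_projective]
        infer_instance
      have h1 : HasProjectiveDimensionLE S.X₁ n := (hS.hasProjectiveDimensionLT_X₃_iff n hP).1 h
      have h2 := (ih S.X₁).2 h1
      refine ⟨S.X₂, inferInstance, inferInstance, S.g.hom, (IsProjective.iff_projective _).2 hP,
        ?_, h2⟩
      exact (ModuleCat.epi_iff_surjective S.g).1 hS.epi_g

theorem finite_iff {R : Type u} [Ring R] (M : ModuleCat.{u} R) :
    (∃ n, PDle R n M) ↔ projectiveDimension M ≠ ⊤ := by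
  rw [projectiveDimension_ne_top_iff]
  exact exists_congr fun n => PDle_iff n M

/-- Krause's question for left modules. -/
theorem main_left (R : Type u) [Ring R] (hA : IsArtinianRing R) (hA' : IsArtinianRing Rᵐᵒᵖ)
    (hclosed : IsClosed (finiteProjDim R)) :
    ∃ n : ℕ, ∀ M : ModuleCat.{u} R, projectiveDimension M ≠ ⊤ → projectiveDimension M ≤ n := by
  obtain ⟨D⟩ := exists_RData hA hA'
  suffices h : ∃ n : ℕ, ∀ M : ModuleCat.{u} R, (∃ m, PDle R m M) → PDle R n M by
    obtain ⟨n, hn⟩ := h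
    exact ⟨n, fun M hM => (projectiveDimension_le_iff M n).2
      ((PDle_iff n M).1 (hn M ((finite_iff M).2 hM)))⟩
  by_contra hcon
  push Not at hcon
  choose M hM hM' using hcon
  have hopen : ∀ n, ∃ w : List (Fin D.L), w.length = n + 1 ∧ ¬ LE1 (phi D w) (psi D w) (M n) := by
    intro n
    by_contra hc
    push Not at hc
    exact hM' n (PDle_of_closed D n (M n) hc)
  let W : List (Fin D.L) → Prop := fun w => ∃ n, ¬ LE1 (phi D w) (psi D w) (M n)
  have hpre : ∀ w w', W (w ++ w') → W w := by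
    rintro w w' ⟨n, hn⟩
    refine ⟨n, fun h => hn fun a ha => ?_⟩
    exact psi_append D w w' _ a (h a (phi_append D w w' _ a ha))
  have hlen : ∀ n, ∃ w, W w ∧ w.length = n := by
    intro n
    obtain ⟨w, hw, hw'⟩ := hopen n
    refine ⟨w.take n, hpre _ (w.drop n) ?_, by simp [hw]⟩
    rw [List.take_append_drop]
    exact ⟨n, hw'⟩
  obtain ⟨s, hs⟩ := konig W hpre hlen
  have happ : ∀ k, (List.range (k + 1)).map s = (List.range k).map s ++ [s k] := by
    intro k
    rw [List.range_succ, List.map_append]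
    rfl
  obtain ⟨N, _, _, hN, hNopen, hNclosed, hnb⟩ := exists_point' (M := fun n => (M n : Type u))
    (fun k => phi D ((List.range k).map s)) (fun k => psi D ((List.range k).map s))
    (fun k j => by
      rw [← LE1_iff, happ]
      exact phi_append D _ _ _)
    (fun k j => by
      rw [← LE1_iff, happ]
      exact psi_append D _ _ _)
    (fun k hk => by
      obtain ⟨n, hn⟩ := hs k
      exact hn ((LE1_iff _ _ _).mpr (hk n)))
  have hNpd : ¬ ∃ n, PDle R n N := by
    rintro ⟨n, hn⟩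
    apply hNopen (n + 1)
    rw [← LE1_iff]
    exact closed_of_PDle D n N hn _ (by simp)
  let N0 : IndecPureInj R := ⟨ModuleCat.of R N, hN⟩
  have hN0 : Zg.mk N0 ∈ (finiteProjDim R)ᶜ := by
    rw [Set.mem_compl_iff, mem_finiteProjDim, ← finite_iff]
    exact hNpd
  have hbasis := TopologicalSpace.isTopologicalBasis_of_subbasis
    (t := zieglerTopology R) (rfl : zieglerTopology R = _)
  obtain ⟨V, ⟨F, ⟨hFfin, hFsub⟩, rfl⟩, hV1, hV2⟩ :=
    hbasis.exists_subset_of_mem_open hN0 hclosed.isOpen_compl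
  -- the finitely many pp pairs
  have hrep : ∀ U : Set (Zg R), ∃ q : Σ m : ℕ, PPFormula R m × PPFormula R m, U ∈ F →
      (∀ M : ModuleCat.{u} R, q.2.2.sol M ⊆ q.2.1.sol M) ∧ U = basicOpen q.2.1 q.2.2 := by
    intro U
    by_cases hU : U ∈ F
    · obtain ⟨m, φ, ψ, h1, h2⟩ := hFsub hU
      exact ⟨⟨m, φ, ψ⟩, fun _ => ⟨h1, h2⟩⟩
    · exact ⟨⟨0, ⟨0, 0, fun i => i.elim0, fun i => i.elim0⟩,
        ⟨0, 0, fun i => i.elim0, fun i => i.elim0⟩⟩, fun h => absurd h hU⟩
  choose q hq using hrep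
  let l : List (Σ m : ℕ, PP R m × PP R m) :=
    hFfin.toFinset.toList.map (fun U => ⟨(q U).1, toPP (q U).2.1, toPP (q U).2.2⟩)
  have hlmem : ∀ N' : IndecPureInj R, (∀ q ∈ l, ¬ q.2.1.ev N'.1 ≤ q.2.2.ev N'.1) ↔
      Zg.mk N' ∈ ⋂₀ F := by
    intro N'
    constructor
    · intro h U hU
      obtain ⟨h1, h2⟩ := hq U hU
      rw [h2, mem_basicOpen _ _ h1]
      refine h ⟨(q U).1, toPP (q U).2.1, toPP (q U).2.2⟩ ?_
      exact List.mem_map.2 ⟨U, by simpa using hU, rfl⟩
    · intro h q' hq'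
      obtain ⟨U, hU, rfl⟩ := List.mem_map.1 hq'
      have hU' : U ∈ F := by simpa using hU
      obtain ⟨h1, h2⟩ := hq U hU'
      have h3 := h U hU'
      rw [h2, mem_basicOpen _ _ h1] at h3
      exact h3
  obtain ⟨α, β, h1, hαβ⟩ := hnb l ((hlmem N0).2 hV1)
  have h2 : ∃ j, ¬ α.ev (M j) ≤ β.ev (M j) := by
    by_contra hc
    push Not at hc
    exact h1 (hNclosed 1 α β hc)
  obtain ⟨j, hj⟩ := h2
  obtain ⟨N', _, _, hN', hN'open, hN'closed, _⟩ :=
    exists_point' (M := fun _ : Unit => (M j : Type u))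
      (fun _ => α) (fun _ => β) (fun _ => LEf.refl _) (fun _ => LEf.refl _)
      (fun k hk => hj (hk ()))
  obtain ⟨m, hm⟩ := hM j
  have hN'pd : PDle R m N' := by
    refine PDle_of_closed D m N' fun w hw => ?_
    rw [LE1_iff]
    refine hN'closed 1 _ _ fun _ => ?_
    rw [← LE1_iff]
    exact closed_of_PDle D m (M j) hm w hw
  have h3 := hαβ N' (fun n' α' β' hle => hN'closed n' α' β' fun _ => hle j) (hN'open 0)
  let N1 : IndecPureInj R := ⟨ModuleCat.of R N', hN'⟩
  have h4 : Zg.mk N1 ∈ ⋂₀ F := (hlmem N1).1 h3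
  have h5 := hV2 h4
  rw [Set.mem_compl_iff, mem_finiteProjDim, ← finite_iff] at h5
  exact h5 ⟨m, hN'pd⟩

end Pool.Agent.Work.MP_95e4ab_al.Spectrum
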