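import Pool.Agent.Work.MP_95e4ab_al.CompactMod

set_option autoImplicit false

namespace Pool.Agent.Work.MP_95e4ab_al

universe u v w

open Filter Topology MulOpposite

attribute [local instance] dualOp dualL

/-- Indecomposable pure-injective modules (Jensen-Lenzing form). -/
def IsZg (R : Type u) [Ring R] (N : Type u) [AddCommGroup N] [Module R N] : Prop :=
  Nontrivial N ∧ (∀ A B : Submodule R N, IsCompl A B → A = ⊥ ∨ B = ⊥) ∧
    ∀ (I : Type u), ∃ g : (I → N) →ₗ[R] N, ∀ x : I →₀ N, g ⇑x = x.sum (fun _ m => m)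

/-- The hull of an irreducible tuple in a compact module. -/
theorem zg_core {R : Type u} [Ring R] {P : Type u} [AddCommGroup P] [Module R P]
    [TopologicalSpace P] [CompactSpace P] [T2Space P] [ContinuousAdd P] [ContinuousConstSMul R P]
    {n : ℕ} (a : Fin n → P) (ha : a ≠ 0)
    (irr : ∀ b c : Fin n → P, (∀ φ : PP R n, a ∈ φ.ev P → b ∈ φ.ev P) →
      (∀ φ : PP R n, a ∈ φ.ev P → c ∈ φ.ev P) → b + c = a →
      (∀ φ : PP R n, b ∈ φ.ev P → a ∈ φ.ev P) ∨ (∀ φ : PP R n, c ∈ φ.ev P → a ∈ φ.ev P)) :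
    ∃ N : Submodule R P, IsZg R N ∧ (∃ r : P →ₗ[R] N, ∀ x : N, r x = x) ∧ ∀ s, a s ∈ N := by
  obtain ⟨e, hee, hea, hmin⟩ := exists_hull (R := R) a
  let N : Submodule R P := LinearMap.range e
  let r : P →ₗ[R] N := e.rangeRestrict
  have hr : ∀ x : N, r x = x := by
    rintro ⟨x, y, rfl⟩
    apply Subtype.ext
    exact hee y
  have hre : ∀ x : P, ((r x : N) : P) = e x := fun x => rfl
  have haN : ∀ s, a s ∈ N := fun s => ⟨a s, hea s⟩
  have hker : ∀ (A B : Submodule R N) (h : IsCompl A B),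
      (∀ φ : PP R n, (fun s => ((A.projection B h (r (a s)) : N) : P)) ∈ φ.ev P → a ∈ φ.ev P) →
      B = ⊥ := by
    intro A B h hpp
    obtain ⟨t, ht⟩ := exists_endo _ a hpp
    let u : P →ₗ[R] P := t ∘ₗ N.subtype ∘ₗ (A.projection B h) ∘ₗ r
    have hu : ∀ s, u (a s) = a s := fun s => ht s
    obtain ⟨s, hs⟩ := hmin u hu
    rw [Submodule.eq_bot_iff]
    intro y hy
    have h1 : e (y : P) = (y : P) := by
      have := hr y
      rw [← hre, this]
    have h2 : u (y : P) = 0 := by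
      change t ((A.projection B h (r (y : P)) : N) : P) = 0
      rw [hr y, Submodule.projection_apply_of_mem_right h hy]
      simp
    have h3 := hs (y : P)
    rw [h1, h2, map_zero, map_zero] at h3
    exact Subtype.ext h3.symm
  refine ⟨N, ⟨?_, ?_, ?_⟩, ⟨r, hr⟩, haN⟩
  · obtain ⟨s, hs⟩ := Function.ne_iff.mp ha
    exact ⟨⟨⟨a s, haN s⟩, 0, fun h => hs (congrArg Subtype.val h)⟩⟩
  · intro A B h
    have hfun : ∀ (A B : Submodule R N) (h : IsCompl A B) (φ : PP R n), a ∈ φ.ev P →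
        (fun s => ((A.projection B h (r (a s)) : N) : P)) ∈ φ.ev P := by
      intro A B h φ hφ
      exact φ.ev_map (N.subtype ∘ₗ (A.projection B h) ∘ₗ r) hφ
    rcases irr _ _ (hfun A B h) (hfun B A h.symm) (by
      funext s
      change ((A.projection B h (r (a s)) : N) : P) + ((B.projection A h.symm (r (a s)) : N) : P)
        = a s
      rw [← Submodule.coe_add, Submodule.projection_add_projection_eq_self]
      rw [hre, hea]) with h1 | h1
    · exact Or.inr (hker A B h h1)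
    · exact Or.inl (hker B A h.symm h1)
  · intro I
    obtain ⟨g, hg⟩ := exists_sum_ext (R := R) (P := P) I
    refine ⟨r ∘ₗ g ∘ₗ LinearMap.compLeft N.subtype I, fun x => ?_⟩
    have h1 : (LinearMap.compLeft N.subtype I) ⇑x = ⇑(x.mapRange N.subtype (map_zero _)) := by
      funext i
      simp
    rw [LinearMap.comp_apply, LinearMap.comp_apply, h1, hg, Finsupp.sum_mapRange_index (by simp)]
    have h2 : (x.sum fun _ m => N.subtype m) = ((x.sum fun _ m => m : N) : P) := by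
      rw [Finsupp.sum, Finsupp.sum]
      simp
    rw [h2]
    exact hr _

section family

variable {R : Type u} [Ring R] {n : ℕ} {J : Type w} (M : J → Type u) [∀ j, AddCommGroup (M j)]
  [∀ j, Module R (M j)]

/-- The order of pp formulas on a family of modules. -/
def LEf {n : ℕ} (α β : PP R n) : Prop := ∀ j, α.ev (M j) ≤ β.ev (M j)

variable {M}

theorem LEf.trans {α β γ : PP R n} (h : LEf M α β) (h' : LEf M β γ) : LEf M α γ :=
  fun j => (h j).trans (h' j)

theorem LEf.refl (α : PP R n) : LEf M α α := fun _ => le_rfl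

theorem inf_LEf_left (α β : PP R n) : LEf M (PP.inf α β) α :=
  fun j _ hx => ((PP.mem_inf α β (M j) _).mp hx).1

theorem inf_LEf_right (α β : PP R n) : LEf M (PP.inf α β) β :=
  fun j _ hx => ((PP.mem_inf α β (M j) _).mp hx).2

theorem LEf_inf {γ α β : PP R n} (h : LEf M γ α) (h' : LEf M γ β) : LEf M γ (PP.inf α β) :=
  fun j _ hx => (PP.mem_inf α β (M j) _).mpr ⟨h j hx, h' j hx⟩

/-- The maximal filter of pp formulas. -/
theorem exists_type (φ ψ : ℕ → PP R n) (hφ : ∀ k, LEf M (φ (k + 1)) (φ k))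
    (hψ : ∀ k, LEf M (ψ k) (ψ (k + 1))) (hopen : ∀ k, ¬ LEf M (φ k) (ψ k)) :
    ∃ p : Set (PP R n), (∀ k, φ k ∈ p) ∧ (∀ k, ψ k ∉ p) ∧ (∀ α ∈ p, ∀ β, LEf M α β → β ∈ p) ∧
      (∀ α ∈ p, ∀ β ∈ p, PP.inf α β ∈ p) ∧
      ∀ χ, χ ∉ p → ∃ θ ∈ p, ∃ k, LEf M (PP.inf θ χ) (ψ k) := by
  have hφm : ∀ j k, j ≤ k → LEf M (φ k) (φ j) := by
    intro j k hjk
    induction k, hjk using Nat.le_induction with
    | base => exact LEf.refl _
    | succ k _ ih => exact (hφ k).trans ih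
  have hψm : ∀ j k, j ≤ k → LEf M (ψ j) (ψ k) := by
    intro j k hjk
    induction k, hjk using Nat.le_induction with
    | base => exact LEf.refl _
    | succ k _ ih => exact ih.trans (hψ k)
  let 𝒮 : Set (Set (PP R n)) := {q | (∀ k, φ k ∈ q) ∧ (∀ k, ψ k ∉ q) ∧
    (∀ α ∈ q, ∀ β, LEf M α β → β ∈ q) ∧ (∀ α ∈ q, ∀ β ∈ q, PP.inf α β ∈ q)}
  let q0 : Set (PP R n) := {α | ∃ k, LEf M (φ k) α}
  have hq0 : q0 ∈ 𝒮 := by
    refine ⟨fun k => ⟨k, LEf.refl _⟩, ?_, ?_, ?_⟩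
    · rintro k ⟨j, hj⟩
      exact hopen (max j k) (((hφm _ _ (le_max_left j k)).trans hj).trans
        (hψm _ _ (le_max_right j k)))
    · rintro α ⟨k, hk⟩ β hβ
      exact ⟨k, hk.trans hβ⟩
    · rintro α ⟨j, hj⟩ β ⟨k, hk⟩
      exact ⟨max j k, LEf_inf ((hφm _ _ (le_max_left j k)).trans hj)
        ((hφm _ _ (le_max_right j k)).trans hk)⟩
  obtain ⟨p, -, ⟨⟨hp1, hp2, hp3, hp4⟩, hmax⟩⟩ := zorn_subset_nonempty 𝒮 (by
    intro c hc hchain hne
    refine ⟨⋃₀ c, ⟨?_, ?_, ?_, ?_⟩, fun s hs => Set.subset_sUnion_of_mem hs⟩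
    · obtain ⟨q, hq⟩ := hne
      exact fun k => ⟨q, hq, (hc hq).1 k⟩
    · rintro k ⟨q, hq, hk⟩
      exact (hc hq).2.1 k hk
    · rintro α ⟨q, hq, hα⟩ β hβ
      exact ⟨q, hq, (hc hq).2.2.1 α hα β hβ⟩
    · rintro α ⟨q, hq, hα⟩ β ⟨q', hq', hβ⟩
      rcases hchain.total hq hq' with h | h
      · exact ⟨q', hq', (hc hq').2.2.2 α (h hα) β hβ⟩
      · exact ⟨q, hq, (hc hq).2.2.2 α hα β (h hβ)⟩) q0 hq0
  refine ⟨p, hp1, hp2, hp3, hp4, ?_⟩
  intro χ hχ
  by_contra hcon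
  push Not at hcon
  let q : Set (PP R n) := {α | ∃ θ ∈ p, LEf M (PP.inf θ χ) α}
  have hpq : p ⊆ q := fun α hα => ⟨α, hα, inf_LEf_left _ _⟩
  have hq : q ∈ 𝒮 := by
    refine ⟨fun k => hpq (hp1 k), ?_, ?_, ?_⟩
    · rintro k ⟨θ, hθ, hk⟩
      exact hcon θ hθ k hk
    · rintro α ⟨θ, hθ, hα⟩ β hβ
      exact ⟨θ, hθ, hα.trans hβ⟩
    · rintro α ⟨θ, hθ, hα⟩ β ⟨θ', hθ', hβ⟩
      refine ⟨PP.inf θ θ', hp4 θ hθ θ' hθ', ?_⟩
      refine LEf_inf (LEf.trans ?_ hα) (LEf.trans ?_ hβ)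
      · exact LEf_inf ((inf_LEf_left _ _).trans (inf_LEf_left _ _)) (inf_LEf_right _ _)
      · exact LEf_inf ((inf_LEf_left _ _).trans (inf_LEf_right _ _)) (inf_LEf_right _ _)
  exact hχ (hmax hq hpq ⟨φ 0, hp1 0, inf_LEf_right _ _⟩)

/-- The topology of pointwise convergence on characters. -/
@[reducible] def charTop (X : Type v) [AddCommGroup X] : TopologicalSpace (X →+ TT) :=
  TopologicalSpace.induced (fun f x => f x) (inferInstance : TopologicalSpace (X → TT))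

attribute [local instance] charTop

theorem char_isClosedEmbedding (X : Type v) [AddCommGroup X] :
    IsClosedEmbedding (fun (f : X →+ TT) (x : X) => f x) := by
  refine ⟨⟨⟨rfl⟩, fun f g h => AddMonoidHom.ext fun x => congrFun h x⟩, ?_⟩
  have h1 : Set.range (fun (f : X →+ TT) (x : X) => f x) =
      {f : X → TT | ∀ x y, f (x + y) = f x + f y} := by
    ext f
    constructor
    · rintro ⟨g, rfl⟩
      intro x y
      exact map_add g x y
    · intro hf
      exact ⟨AddMonoidHom.mk' f hf, rfl⟩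
  rw [h1]
  simp only [Set.ofPred_forall]
  refine isClosed_iInter fun x => isClosed_iInter fun y => ?_
  exact isClosed_eq (continuous_apply _) ((continuous_apply x).add (continuous_apply y))

instance char_compact (X : Type v) [AddCommGroup X] : CompactSpace (X →+ TT) :=
  (char_isClosedEmbedding X).compactSpace

instance char_t2 (X : Type v) [AddCommGroup X] : T2Space (X →+ TT) :=
  (char_isClosedEmbedding X).isEmbedding.t2Space

theorem char_continuous_iff (X : Type v) [AddCommGroup X] {Y : Type w} [TopologicalSpace Y]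
    (f : Y → (X →+ TT)) : Continuous f ↔ ∀ x, Continuous (fun y => f y x) := by
  rw [continuous_induced_rng]
  exact continuous_pi_iff

theorem char_continuous_eval (X : Type v) [AddCommGroup X] (x : X) :
    Continuous (fun f : X →+ TT => f x) :=
  (continuous_apply x).comp continuous_induced_dom

instance char_continuousAdd (X : Type v) [AddCommGroup X] : ContinuousAdd (X →+ TT) := by
  refine ⟨?_⟩
  rw [char_continuous_iff]
  intro x
  exact ((char_continuous_eval X x).comp continuous_fst).add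
    ((char_continuous_eval X x).comp continuous_snd)

instance char_continuousConstSMul (R : Type u) [Ring R] (X : Type v) [AddCommGroup X]
    [Module Rᵐᵒᵖ X] : ContinuousConstSMul R (X →+ TT) := by
  refine ⟨fun r => ?_⟩
  rw [char_continuous_iff]
  intro x
  exact char_continuous_eval X (op r • x)

/-- Realisation of a filter of pp formulas in a compact module. -/
theorem exists_realization (p : Set (PP R n)) (hne : p.Nonempty)
    (hup : ∀ α ∈ p, ∀ β, LEf M α β → β ∈ p)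
    (hinf : ∀ α ∈ p, ∀ β ∈ p, PP.inf α β ∈ p) :
    ∃ (P : Type u) (_ : AddCommGroup P) (_ : Module R P) (_ : TopologicalSpace P)
      (_ : CompactSpace P) (_ : T2Space P) (_ : ContinuousAdd P) (_ : ContinuousConstSMul R P)
      (a : Fin n → P), (∀ α : PP R n, a ∈ α.ev P ↔ α ∈ p) ∧
      ∀ (n' : ℕ) (α β : PP R n'), LEf M α β → α.ev P ≤ β.ev P := by
  have h1 : ∀ (φ : p) (ψ : {ψ : PP R n // ψ ∉ p}), ∃ (j : J) (z : Fin n → (M j →+ TT)),
      z ∈ ψ.1.dv (M j →+ TT) ∧ z ∉ φ.1.dv (M j →+ TT) := by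
    intro φ ψ
    have h2 : ¬ LEf M φ.1 ψ.1 := fun h => ψ.2 (hup _ φ.2 _ h)
    obtain ⟨j, hj⟩ := not_forall.mp h2
    obtain ⟨z, hz, hz'⟩ := PP.exists_dv_of_not_ev_le _ _ _ hj
    exact ⟨j, z, hz, hz'⟩
  choose j z hz hz' using h1
  let X : {ψ : PP R n // ψ ∉ p} → Type u := fun ψ => ∀ φ : p, (M (j φ ψ) →+ TT)
  let zz : ∀ ψ : {ψ : PP R n // ψ ∉ p}, Fin n → X ψ := fun ψ s φ => z φ ψ s
  have hzz : ∀ ψ, zz ψ ∈ ψ.1.dv (X ψ) := by
    intro ψ
    rw [PP.mem_dv_pi]
    exact fun φ => hz φ ψ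
  have hzz' : ∀ ψ, ∀ φ ∈ p, zz ψ ∉ φ.dv (X ψ) := by
    intro ψ φ hφ hc
    rw [PP.mem_dv_pi] at hc
    exact hz' ⟨φ, hφ⟩ ψ (hc ⟨φ, hφ⟩)
  let D : ∀ ψ : {ψ : PP R n // ψ ∉ p}, AddSubgroup (Fin n → X ψ) := fun ψ =>
    { carrier := {x | ∃ φ ∈ p, x ∈ φ.dv (X ψ)}
      zero_mem' := by
        obtain ⟨φ, hφ⟩ := hne
        exact ⟨φ, hφ, zero_mem _⟩
      add_mem' := by
        rintro x y ⟨φ, hφ, hx⟩ ⟨φ', hφ', hy⟩
        exact ⟨PP.inf φ φ', hinf φ hφ φ' hφ', add_mem (PP.dv_le_inf_left φ φ' _ hx)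
          (PP.dv_le_inf_right φ φ' _ hy)⟩
      neg_mem' := by
        rintro x ⟨φ, hφ, hx⟩
        exact ⟨φ, hφ, neg_mem hx⟩ }
  have h3 : ∀ ψ, zz ψ ∉ D ψ := by
    rintro ψ ⟨φ, hφ, hc⟩
    exact hzz' ψ φ hφ hc
  choose χ hχ hχ' using fun ψ => char_sep_subgroup (D ψ) (h3 ψ)
  let a : Fin n → ∀ ψ : {ψ : PP R n // ψ ∉ p}, (X ψ →+ TT) :=
    fun s ψ => (χ ψ).comp (AddMonoidHom.single (fun _ : Fin n => X ψ) s)
  refine ⟨∀ ψ : {ψ : PP R n // ψ ∉ p}, (X ψ →+ TT), inferInstance, inferInstance,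
    inferInstance, inferInstance, inferInstance, inferInstance, inferInstance, a, ?_, ?_⟩
  · intro α
    constructor
    · intro hα
      by_contra hαp
      rw [PP.mem_ev_pi] at hα
      have h4 := hα ⟨α, hαp⟩
      rw [PP.mem_ev_dual] at h4
      have h5 := h4 (zz ⟨α, hαp⟩) (hzz ⟨α, hαp⟩)
      change ∑ s, ((χ ⟨α, hαp⟩).comp (AddMonoidHom.single (fun _ : Fin n => X ⟨α, hαp⟩) s))
        (zz ⟨α, hαp⟩ s) = 0 at h5
      rw [sum_single_char] at h5
      exact hχ' _ h5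
    · intro hα
      rw [PP.mem_ev_pi]
      intro ψ
      rw [PP.mem_ev_dual]
      intro y hy
      change ∑ s, ((χ ψ).comp (AddMonoidHom.single (fun _ : Fin n => X ψ) s)) (y s) = 0
      rw [sum_single_char]
      exact hχ ψ y ⟨α, hα, hy⟩
  · intro n' α β h x hx
    rw [PP.mem_ev_pi] at hx ⊢
    intro ψ
    refine PP.ev_le_of_dv_le α β (X ψ) ?_ (hx ψ)
    intro y hy
    rw [PP.mem_dv_pi] at hy ⊢
    intro φ
    exact PP.dv_le_of_ev_le α β _ (h _) (hy φ)

/-- The main existence theorem: a nested sequence of pp pairs, each open on some member of a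
family of modules, is simultaneously open on an indecomposable pure-injective module in the
definable closure of the family. -/
theorem exists_point (φ ψ : ℕ → PP R n) (hφ : ∀ k, LEf M (φ (k + 1)) (φ k))
    (hψ : ∀ k, LEf M (ψ k) (ψ (k + 1))) (hopen : ∀ k, ¬ LEf M (φ k) (ψ k)) :
    ∃ (N : Type u) (_ : AddCommGroup N) (_ : Module R N), IsZg R N ∧
      (∀ k, ¬ (φ k).ev N ≤ (ψ k).ev N) ∧
      ∀ (n' : ℕ) (α β : PP R n'), LEf M α β → α.ev N ≤ β.ev N := by
  obtain ⟨p, hp1, hp2, hp3, hp4, hp5⟩ := exists_type φ ψ hφ hψ hopen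
  obtain ⟨P, _, _, _, _, _, _, _, a, ha, hP⟩ := exists_realization (M := M) p ⟨_, hp1 0⟩ hp3 hp4
  have hψm : ∀ j k, j ≤ k → LEf M (ψ j) (ψ k) := by
    intro j k hjk
    induction k, hjk using Nat.le_induction with
    | base => exact LEf.refl _
    | succ k _ ih => exact ih.trans (hψ k)
  have ha0 : a ≠ 0 := by
    intro h
    apply hp2 0
    rw [← ha, h]
    exact zero_mem _
  obtain ⟨N, hN, ⟨r, hr⟩, haN⟩ := zg_core (R := R) a ha0 (by
    intro b c hb hc hbc
    by_contra hcon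
    push Not at hcon
    obtain ⟨⟨χ, hχb, hχ⟩, ⟨χ', hχc, hχ'⟩⟩ := hcon
    rw [ha] at hχ hχ'
    obtain ⟨θ, hθ, k, hk⟩ := hp5 χ hχ
    obtain ⟨θ', hθ', k', hk'⟩ := hp5 χ' hχ'
    have h1 : b ∈ (ψ (max k k')).ev P :=
      hP n _ _ (hk.trans (hψm _ _ (le_max_left k k')))
        ((PP.mem_inf _ _ _ _).mpr ⟨hb θ ((ha θ).mpr hθ), hχb⟩)
    have h2 : c ∈ (ψ (max k k')).ev P :=
      hP n _ _ (hk'.trans (hψm _ _ (le_max_right k k')))
        ((PP.mem_inf _ _ _ _).mpr ⟨hc θ' ((ha θ').mpr hθ'), hχc⟩)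
    have h3 := add_mem h1 h2
    rw [hbc, ha] at h3
    exact hp2 _ h3)
  refine ⟨N, inferInstance, inferInstance, hN, ?_, ?_⟩
  · intro k hk
    have h1 : a ∈ (φ k).ev P := (ha _).mpr (hp1 k)
    have h2 := (φ k).ev_map r h1
    have h3 := (ψ k).ev_map N.subtype (hk h2)
    have h4 : (fun s => N.subtype (r (a s))) = a := by
      funext s
      have := hr ⟨a s, haN s⟩
      exact congrArg Subtype.val this
    rw [h4, ha] at h3
    exact hp2 k h3
  · intro n' α β h x hx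
    have h1 := α.ev_map N.subtype hx
    have h2 := hP n' α β h h1
    have h3 := β.ev_map r h2
    have h4 : (fun s => r (N.subtype (x s))) = x := by
      funext s
      exact hr (x s)
    rwa [h4] at h3

end family

end Pool.Agent.Work.MP_95e4ab_al
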